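import Pool.Agent.Lib_MP_b3cab1_an.Pieces

set_option autoImplicit false

/-!
# Lower bound and local finiteness of the new norm
-/

open Filter Topology Set

namespace Pool.Agent.LibOrlicz

open OrliczSeq

variable {M : OrliczFunction}

/-- There is a sequence `t n → 0` of positive numbers with `sup_n M (K t n) / M (t n) < ∞` for
every `K`. -/
def HasSlowSeq (M : OrliczFunction) : Prop :=
  ∃ t : ℕ → ℝ, (∀ n, 0 < t n) ∧ Tendsto t atTop (𝓝 0) ∧
    ∀ K : ℝ, 0 < K → ∃ C : ℝ, ∀ n, M (K * t n) ≤ C * M (t n)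

/-! ### lower bound -/

lemma value_le_of_fn {x : OrliczSeq M} (h : ∀ A, fn A x ≤ 1) (A : Asg) :
    wt M A * (lin A x - cost M A) ≤ 1 := (fn_le_one_iff A x).1 (h A)

lemma value_le_one_of_fn {x : OrliczSeq M} (h : ∀ A, fn A x ≤ 1) (A : Asg) :
    lin A x - cost M A ≤ 1 := by
  have h1 := value_le_of_fn h A
  rcases le_total (lin A x - cost M A) 0 with h2 | h2
  · linarith
  · have h3 := mul_le_mul_of_nonneg_right (one_le_wt (M := M) A) h2
    linarith

/-- sign of a real as an integer -/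
noncomputable def sg (v : ℝ) : ℤ := if 0 ≤ v then 1 else -1

lemma sg_mul (v : ℝ) : (sg v : ℝ) * v = |v| := by
  unfold sg
  split
  · next h => rw [abs_of_nonneg h]; simp
  · next h => rw [abs_of_neg (not_le.1 h)]; simp

lemma sign_sg_mul (v : ℝ) {n : ℕ} (hn : 1 ≤ n) : (sg v * (n : ℤ)).sign = sg v := by
  have h : (n : ℤ).sign = 1 := Int.sign_eq_one_of_pos (by omega)
  rw [Int.sign_mul, h, mul_one]
  unfold sg
  split <;> rfl

lemma natAbs_sg_mul (v : ℝ) (n : ℕ) : (sg v * (n : ℤ)).natAbs = n := by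
  rw [Int.natAbs_mul, Int.natAbs_natCast]
  unfold sg
  split <;> simp

lemma coord_lt_of_fn {x : OrliczSeq M} (h : ∀ A, fn A x ≤ 1) (i : ℕ) :
    |x.coord i| < M.lev 0 := by
  by_contra hcon
  rw [not_lt] at hcon
  have h1 : M.lev 1 ≤ |x.coord i| := (M.lev_antitone (Nat.zero_le 1)).trans hcon
  have h2 := value_le_one_of_fn h (Finsupp.single i (sg (x.coord i) * ((1 : ℕ) : ℤ)))
  have hne : sg (x.coord i) * ((1 : ℕ) : ℤ) ≠ 0 := by
    intro h0
    have := natAbs_sg_mul (x.coord i) 1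
    rw [h0] at this
    simp at this
  rw [lin_sub_cost, Finsupp.support_single_ne_zero _ hne, Finset.sum_singleton,
    Finsupp.single_eq_same, natAbs_sg_mul, sign_sg_mul _ le_rfl, sg_mul] at h2
  have h3 := M.le_piece h1
  have h4 := M.two_le_M_lev_one
  linarith

lemma mod_half_le {x : OrliczSeq M} (h : ∀ A, fn A x ≤ 1) : mod (1 / 2) x ≤ 1 := by
  classical
  have hlev : ∀ i, x.coord i ≠ 0 → ∃ n, 1 ≤ n ∧ M.lev n ≤ |x.coord i| ∧
      |x.coord i| < 2 * M.lev n := fun i hi =>
    M.exists_lev (abs_pos.2 hi) (coord_lt_of_fn h i)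
  choose! n hn1 hn2 hn3 using hlev
  unfold mod
  apply (x.summable (by norm_num)).tsum_le_of_sum_le
  intro I
  set A : Asg := Finsupp.onFinset I
    (fun i => if i ∈ I ∧ x.coord i ≠ 0 then sg (x.coord i) * (n i : ℤ) else 0)
    (fun i hi => by
      by_contra hcon
      apply hi
      rw [if_neg (fun h => hcon h.1)]) with hA
  have hAi : ∀ i, A i = if i ∈ I ∧ x.coord i ≠ 0 then sg (x.coord i) * (n i : ℤ) else 0 :=
    fun i => rfl
  have hsupp : A.support = I.filter (fun i => x.coord i ≠ 0) := by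
    ext i
    rw [Finsupp.mem_support_iff, hAi, Finset.mem_filter]
    constructor
    · intro h1
      by_contra h2
      exact h1 (if_neg h2)
    · intro h1
      rw [if_pos h1]
      intro h0
      have := natAbs_sg_mul (x.coord i) (n i)
      rw [h0] at this
      have h3 := hn1 i h1.2
      simp at this
      omega
  have h1 := value_le_one_of_fn h A
  rw [lin_sub_cost, hsupp] at h1
  have h2 : ∑ i ∈ I, M (1 / 2 * |x.coord i|) =
      ∑ i ∈ I.filter (fun i => x.coord i ≠ 0), M (1 / 2 * |x.coord i|) := by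
    rw [Finset.sum_filter_of_ne]
    intro i _ hi h0
    apply hi
    rw [h0]
    simp
  rw [h2]
  refine le_trans (Finset.sum_le_sum ?_) h1
  intro i hi
  rw [Finset.mem_filter] at hi
  rw [hAi, if_pos hi, natAbs_sg_mul, sign_sg_mul _ (hn1 i hi.2), sg_mul]
  refine le_trans (M.mono (by positivity) ?_) (M.le_piece (hn2 i hi.2))
  linarith [hn3 i hi.2]

lemma norm_le_two {x : OrliczSeq M} (h : ∀ A, fn A x ≤ 1) : ‖x‖ ≤ 2 := by
  have := norm_le_of_mod (x := x) (K := 1 / 2) (by norm_num) (mod_half_le h)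
  norm_num at this
  exact this

lemma norm_le_nn (x : OrliczSeq M) : ‖x‖ ≤ 2 * nn x := by
  apply le_of_forall_pos_le_add
  intro ε hε
  set s := nn x + ε / 2 with hs
  have hs0 : 0 < s := by linarith [nn_nonneg x]
  have h1 : ‖s⁻¹ • x‖ ≤ 2 := by
    apply norm_le_two
    intro A
    rw [fn_smul, inv_mul_le_iff₀ hs0, mul_one, hs]
    linarith [fn_le_nn A x]
  rw [norm_smul, Real.norm_eq_abs, abs_of_pos (inv_pos.2 hs0), inv_mul_le_iff₀ hs0] at h1
  linarith

lemma nn_pos {x : OrliczSeq M} (h : x ≠ 0) : 0 < nn x := by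
  have h1 := norm_pos_iff.2 h
  have h2 := norm_le_nn x
  linarith

/-! ### near optimal assignments -/

/-- the value of a near optimal assignment -/
lemma near_value {y : OrliczSeq M} {A : Asg} {e b : ℝ} (he : 0 ≤ e) (he4 : e ≤ 1 / 4)
    (hb : mod 4 y ≤ b) (hA : 1 - e ≤ fn A y) :
    1 - e * (1 + 4 * b) ≤ wt M A * (lin A y - cost M A) := by
  have hw1 := one_le_wt (M := M) A
  have hw2 := wt_le_two (M := M) A
  have hc0 := cost_nonneg (M := M) A
  have hb0 : 0 ≤ b := (mod_nonneg (by norm_num) y).trans hb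
  have h1 : (1 - e) * (1 + wt M A * cost M A) ≤ wt M A * lin A y := by
    unfold fn at hA
    rwa [le_div_iff₀ (den_pos A)] at hA
  have h2 := value_le A ((2 : ℝ) • y)
  rw [mod_smul, lin_smul] at h2
  have e2 : (2 : ℝ) * |2| = 4 := by norm_num
  rw [e2] at h2
  have h3 : wt M A * (2 * lin A y - cost M A) ≤ 2 * b := by
    calc wt M A * (2 * lin A y - cost M A) ≤ wt M A * b :=
          mul_le_mul_of_nonneg_left (h2.trans hb) (by linarith)
      _ ≤ 2 * b := mul_le_mul_of_nonneg_right hw2 hb0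
  set c := wt M A * cost M A with hc
  have hc1 : 0 ≤ c := by positivity
  have h4 : wt M A * (2 * lin A y - cost M A) = 2 * (wt M A * lin A y) - c := by rw [hc]; ring
  have h5 : wt M A * (lin A y - cost M A) = wt M A * lin A y - c := by rw [hc]; ring
  rw [h4] at h3
  rw [h5]
  have h6 : e * c ≤ 1 / 4 * c := mul_le_mul_of_nonneg_right he4 hc1
  have h7 : c ≤ 4 * b := by nlinarith
  have h8 : e * c ≤ e * (4 * b) := mul_le_mul_of_nonneg_left h7 he
  nlinarith

/-- near optimal assignments do not use inefficient levels -/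
lemma level_bound {y : OrliczSeq M} (hy : ∀ B, fn B y ≤ 1) {A : Asg} {e1 : ℝ}
    (he1 : e1 ≤ 1 / 2) (hA : 1 - e1 ≤ wt M A * (lin A y - cost M A)) {j : ℕ} {S b : ℝ}
    (hb : mod (2 ^ (j + 1)) y ≤ b) (hS1 : 1 ≤ S) (hS : 48 * 2 ^ (j + 1) * b ≤ S)
    (he : e1 < (1 / 2) ^ (j + 1) / (16 * S)) {i : ℕ} (hi : i ∈ A.support) :
    M.ratio j (A i).natAbs < 4 * S ^ 2 := by
  classical
  by_contra hcon
  rw [not_lt] at hcon
  have hS0 : 0 < S := by linarith
  have hb0 : 0 ≤ b := (mod_nonneg (by positivity) y).trans hb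
  have hsq : √(S ^ 2) = S := Real.sqrt_sq hS0.le
  have hsq4 : √(4 * S ^ 2) = 2 * S := by
    have : 4 * S ^ 2 = (2 * S) ^ 2 := by ring
    rw [this, Real.sqrt_sq (by positivity)]
  set B := A.filter (fun i => M.ratio j (A i).natAbs ≤ S ^ 2) with hB
  have h1 : cj M j A ≤ 1 / (2 * S) := by
    refine (cj_le_eff j A hi).trans ?_
    have := M.eff_le (by positivity) hcon
    rwa [hsq4] at this
  have h2 : 1 / S ≤ cj M j B := by
    apply le_cj
    · rw [div_le_one hS0]; exact hS1
    · intro i' hi'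
      rw [hB, Finsupp.support_filter, Finset.mem_filter] at hi'
      rw [hB, Finsupp.filter_apply_pos (fun i => M.ratio j (A i).natAbs ≤ S ^ 2) A hi'.2]
      have := M.le_eff hi'.2
      rwa [hsq] at this
  have h3 := wt_filter (M := M) A (fun i => M.ratio j (A i).natAbs ≤ S ^ 2) j
    (d := 1 / (2 * S)) (by
      rw [← hB]
      have e : 1 / S = 1 / (2 * S) + 1 / (2 * S) := by field_simp; norm_num
      linarith)
  rw [← hB] at h3
  have h4 := value_filter_ratio A y j (C := S ^ 2) (by positivity)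
  rw [← hB] at h4
  set d : ℝ := (1 / 2) ^ (j + 1) * (1 / (2 * S)) with hd
  have hd0 : 0 < d := by positivity
  have hd8 : (1 / 2 : ℝ) ^ (j + 1) / (16 * S) = d / 8 := by rw [hd]; field_simp; norm_num
  rw [hd8] at he
  set QA := lin A y - cost M A with hQA
  set QB := lin B y - cost M B with hQB
  have hbS : 3 * (b / S ^ 2) ≤ d / 8 := by
    have e1 : d / 8 = S / (16 * 2 ^ (j + 1)) / S ^ 2 := by
      rw [hd, one_div, inv_pow]
      field_simp
      norm_num
    rw [e1, ← mul_div_assoc]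
    apply div_le_div_of_nonneg_right _ (by positivity)
    rw [le_div_iff₀ (by positivity)]
    linarith
  have hloss : mod (2 ^ (j + 1)) y / S ^ 2 ≤ b / S ^ 2 :=
    div_le_div_of_nonneg_right hb (by positivity)
  have hw1 := one_le_wt (M := M) A
  have hw2 := wt_le_two (M := M) A
  have hwB := wt_le_two (M := M) B
  have hd1 : d ≤ 1 := by linarith
  have hQA4 : 1 / 4 ≤ QA := by
    by_contra hc
    rw [not_le] at hc
    rcases le_total QA 0 with h0 | h0
    · have := mul_nonpos_of_nonneg_of_nonpos (by linarith : (0:ℝ) ≤ wt M A) h0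
      linarith
    · have := mul_le_mul_of_nonneg_right hw2 h0
      linarith
  have hbS0 : 0 ≤ b / S ^ 2 := by positivity
  have hQB1 : QA - b / S ^ 2 ≤ QB := by linarith
  have hQpos : 0 ≤ QA - b / S ^ 2 := by linarith
  have h5 : (wt M A + d) * (QA - b / S ^ 2) ≤ wt M B * QB :=
    mul_le_mul h3 hQB1 hQpos (by linarith)
  have h6 := value_le_of_fn hy B
  have h7 : (wt M A + d) * (QA - b / S ^ 2) =
      wt M A * QA + d * QA - (wt M A + d) * (b / S ^ 2) := by ring
  have h8 : (wt M A + d) * (b / S ^ 2) ≤ 3 * (b / S ^ 2) :=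
    mul_le_mul_of_nonneg_right (by linarith) hbS0
  have h9 : d * (1 / 4) ≤ d * QA := mul_le_mul_of_nonneg_left hQA4 hd0.le
  linarith

/-- near optimal assignments do not use small coordinates -/
lemma coord_bound {y : OrliczSeq M} (hy : ∀ B, fn B y ≤ 1) {A : Asg} {e1 : ℝ}
    (he1 : e1 ≤ 1 / 2) (hA : 1 - e1 ≤ wt M A * (lin A y - cost M A)) {n : ℕ}
    (hn : ∀ i ∈ A.support, (A i).natAbs ≤ n) (he : e1 < M (M.lev n) / 2) {i : ℕ}
    (hi : i ∈ A.support) : M.lev n / 4 < |y.coord i| := by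
  classical
  by_contra hcon
  rw [not_lt] at hcon
  set B := A.filter (fun k => k ≠ i) with hB
  have h1 := value_filter_add A y (fun k => k ≠ i)
  rw [← hB] at h1
  have h2 : A.support.filter (fun k => ¬ k ≠ i) = {i} := by
    ext k
    rw [Finset.mem_filter, Finset.mem_singleton, not_not]
    exact ⟨fun h => h.2, fun h => ⟨h ▸ hi, h⟩⟩
  rw [h2, Finset.sum_singleton] at h1
  have h3 := term_le (M := M) (A i) (y.coord i)
  have h4 : M.lev n ≤ M.lev (A i).natAbs := M.lev_antitone (hn i hi)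
  have h5 := M.piece_le_neg (n := (A i).natAbs) (u := |y.coord i|) (by linarith)
  have h6 : M (M.lev n) ≤ M (M.lev (A i).natAbs) := M.mono (M.lev_pos n).le h4
  have hMp := M.M_lev_pos n
  set QA := lin A y - cost M A
  set QB := lin B y - cost M B
  have hw1 := one_le_wt (M := M) A
  have hw2 := wt_le_two (M := M) A
  have hwB := wt_filter' (M := M) A (fun k => k ≠ i)
  rw [← hB] at hwB
  have h7 : QA + M (M.lev n) / 2 ≤ QB := by linarith
  have hQA : 0 ≤ QA := by
    by_contra hc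
    rw [not_le] at hc
    have := mul_nonpos_of_nonneg_of_nonpos (by linarith : (0:ℝ) ≤ wt M A) hc.le
    linarith
  have h8 := value_le_of_fn hy B
  have h9 : wt M A * (QA + M (M.lev n) / 2) ≤ wt M B * QB :=
    mul_le_mul hwB h7 (by positivity) (by linarith)
  have h10 : M (M.lev n) / 2 ≤ wt M A * (M (M.lev n) / 2) :=
    le_mul_of_one_le_left (by positivity) hw1
  linarith

/-! ### local finiteness -/

/-- without slow sequences, all small levels are inefficient -/
lemma exists_level_bound (hM : ¬ HasSlowSeq M) (C : ℕ → ℝ) :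
    ∃ J n0 : ℕ, ∀ n, n0 ≤ n → ∃ j, j ≤ J ∧ C j ≤ M.ratio j n := by
  by_contra hcon
  push Not at hcon
  choose n hn1 hn2 using fun k : ℕ => hcon k k
  apply hM
  refine ⟨fun k => M.lev (n k), fun k => M.lev_pos _, ?_, ?_⟩
  · have h1 : Tendsto n atTop atTop := tendsto_atTop_mono hn1 tendsto_id
    exact M.tendsto_lev.comp h1
  · intro K hK
    obtain ⟨j, hj⟩ := pow_unbounded_of_one_lt K (one_lt_two)
    classical
    have hj0 : ∀ k, j ≤ k → M (K * M.lev (n k)) ≤ C j * M (M.lev (n k)) := by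
      intro k hk
      have h2 := hn2 k j hk
      unfold OrliczFunction.ratio at h2
      rw [div_lt_iff₀ (M.M_lev_pos _)] at h2
      refine le_trans (M.mono (mul_nonneg hK.le (M.lev_pos _).le) ?_) h2.le
      exact mul_le_mul_of_nonneg_right hj.le (M.lev_pos _).le
    set D := ∑ k ∈ Finset.range j, M (K * M.lev (n k)) / M (M.lev (n k)) with hD
    have hterm : ∀ k, 0 ≤ M (K * M.lev (n k)) / M (M.lev (n k)) := fun k =>
      div_nonneg (M.nonneg (mul_nonneg hK.le (M.lev_pos _).le)) (M.M_lev_pos _).le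
    have hD0 : 0 ≤ D := Finset.sum_nonneg (fun k _ => hterm k)
    refine ⟨|C j| + D, fun k => ?_⟩
    rcases le_or_gt j k with hk | hk
    · refine (hj0 k hk).trans ?_
      apply mul_le_mul_of_nonneg_right _ (M.M_lev_pos _).le
      linarith [le_abs_self (C j)]
    · have h3 : M (K * M.lev (n k)) / M (M.lev (n k)) ≤ D :=
        Finset.single_le_sum (f := fun k => M (K * M.lev (n k)) / M (M.lev (n k)))
          (fun k _ => hterm k) (Finset.mem_range.2 hk)
      rw [div_le_iff₀ (M.M_lev_pos _)] at h3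
      refine h3.trans ?_
      apply mul_le_mul_of_nonneg_right _ (M.M_lev_pos _).le
      linarith [abs_nonneg (C j)]

lemma mod_near {y y0 : OrliczSeq M} {K : ℝ} (hK : 0 < K) (h : ‖y - y0‖ < (2 * K)⁻¹) :
    mod K y ≤ mod (2 * K) y0 + 1 := by
  have h1 := mod_add_le (K := K) (a := 1 / 2) (b := 1 / 2) hK (by norm_num) (by norm_num)
    y0 (y - y0)
  have e1 : K / (1 / 2 + 1 / 2) = K := by norm_num
  have e2 : K / (1 / 2) = 2 * K := by ring
  have e3 : (1 / 2 : ℝ) / (1 / 2 + 1 / 2) = 1 / 2 := by norm_num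
  rw [e1, e2, e3, add_sub_cancel] at h1
  have h2 := mod_le_one_of_norm h
  have h3 := mod_nonneg (K := 2 * K) (by positivity) y0
  linarith

lemma coord_tendsto (y : OrliczSeq M) {s : ℝ} (hs : 0 < s) :
    {i | s ≤ |y.coord i|}.Finite := by
  have h1 := (y.summable one_pos).tendsto_cofinite_zero
  have h2 : ∀ᶠ i in cofinite, M (1 * |y.coord i|) < M s :=
    (tendsto_order.1 h1).2 _ (M.pos hs)
  rw [eventually_cofinite] at h2
  refine h2.subset (fun i hi => ?_)
  simp only [Set.mem_ofPred_eq, one_mul, not_lt] at hi ⊢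
  exact M.mono hs.le hi

lemma coord_le_norm (y : OrliczSeq M) (i : ℕ) : |y.coord i| ≤ M.lev 1 * ‖y‖ := by
  apply le_of_forall_pos_le_add
  intro ε hε
  have hl := M.lev_pos 1
  set r := ‖y‖ + ε / M.lev 1 with hr
  have hr0 : 0 < r := by positivity
  have h1 : mod r⁻¹ y ≤ 1 := by
    apply mod_le_one_of_norm
    rw [inv_inv, hr]
    have : 0 < ε / M.lev 1 := by positivity
    linarith
  have h2 := (coord_le_of_mod (inv_pos.2 hr0) y i).trans h1
  have h3 : r⁻¹ * |y.coord i| ≤ M.lev 1 := by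
    by_contra hc
    rw [not_le] at hc
    have := M.mono hl.le hc.le
    linarith [M.two_le_M_lev_one]
  rw [inv_mul_le_iff₀ hr0] at h3
  refine h3.trans (le_of_eq ?_)
  rw [hr]
  field_simp

/-- Local finiteness of the family of functionals, near a point of the new unit ball. -/
theorem locally_finite (hM : ¬ HasSlowSeq M) (y0 : OrliczSeq M) :
    ∃ δ : ℝ, 0 < δ ∧ ∃ e : ℝ, 0 < e ∧ ∃ 𝒜 : Finset Asg, ∀ y : OrliczSeq M, ‖y - y0‖ < δ →
      (∀ B, fn B y ≤ 1) → ∀ A, 1 - e ≤ fn A y → A ∈ 𝒜 := by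
  classical
  set b : ℕ → ℝ := fun j => mod (2 * 2 ^ (j + 1)) y0 + 1 with hb
  have hb1 : ∀ j, 1 ≤ b j := fun j => by
    have := mod_nonneg (K := 2 * 2 ^ (j + 1)) (by positivity) y0
    simp only [hb]
    linarith
  set S : ℕ → ℝ := fun j => 48 * 2 ^ (j + 1) * b j with hS
  have hS1 : ∀ j, 1 ≤ S j := fun j => by
    have h1 : (1 : ℝ) ≤ 2 ^ (j + 1) := one_le_pow₀ (by norm_num)
    have h2 := hb1 j
    simp only [hS]
    nlinarith
  obtain ⟨J, n0, hJ⟩ := exists_level_bound hM (fun j => 4 * S j ^ 2)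
  -- the threshold
  set f : ℕ → ℝ := fun j => (1 / 2) ^ (j + 1) / (16 * S j) with hf
  have hf0 : ∀ j, 0 < f j := fun j => by
    have := hS1 j
    simp only [hf]
    positivity
  obtain ⟨η, hη0, hη2, hηM, hηf⟩ : ∃ η : ℝ, 0 < η ∧ η ≤ 1 / 2 ∧ η < M (M.lev n0) / 2 ∧
      ∀ j, j ≤ J → η < f j := by
    have hne : (Finset.range (J + 1)).Nonempty := ⟨0, by simp⟩
    set g := (Finset.range (J + 1)).inf' hne f with hg
    have hg0 : 0 < g := by
      rw [hg, Finset.lt_inf'_iff]
      exact fun j _ => hf0 j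
    have hMp := M.M_lev_pos n0
    refine ⟨min (1 / 2) (min (M (M.lev n0) / 2) g) / 2, by positivity, ?_, ?_, ?_⟩
    · have := min_le_left (1 / 2 : ℝ) (min (M (M.lev n0) / 2) g)
      linarith
    · have h1 := min_le_right (1 / 2 : ℝ) (min (M (M.lev n0) / 2) g)
      have h2 := min_le_left (M (M.lev n0) / 2) g
      have h3 : 0 < min (1 / 2 : ℝ) (min (M (M.lev n0) / 2) g) := by positivity
      linarith
    · intro j hj
      have h1 := min_le_right (1 / 2 : ℝ) (min (M (M.lev n0) / 2) g)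
      have h2 := min_le_right (M (M.lev n0) / 2) g
      have h3 : 0 < min (1 / 2 : ℝ) (min (M (M.lev n0) / 2) g) := by positivity
      have h4 : g ≤ f j := Finset.inf'_le _ (Finset.mem_range.2 (by omega))
      linarith
  set e : ℝ := min (1 / 4) (η / (1 + 4 * b 1)) with he
  have hb10 := hb1 1
  have he0 : 0 < e := by positivity
  have he4 : e ≤ 1 / 4 := min_le_left _ _
  have heη : e * (1 + 4 * b 1) ≤ η := by
    have h1 : e ≤ η / (1 + 4 * b 1) := min_le_right _ _
    rwa [le_div_iff₀ (by positivity)] at h1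
  -- the radius
  set δ : ℝ := min (min ((2 * 2 ^ (J + 1))⁻¹) 8⁻¹) (M.lev n0 / 8 / M.lev 1) with hδ
  have hl0 := M.lev_pos n0
  have hl1 := M.lev_pos 1
  have hδ0 : 0 < δ := by positivity
  set I := (coord_tendsto y0 (s := M.lev n0 / 8) (by positivity)).toFinset with hI
  refine ⟨δ, hδ0, e, he0, Finset.finsupp I (fun _ => Finset.Icc (-(n0 : ℤ)) n0), ?_⟩
  intro y hy hyB A hA
  have hy1 : ‖y - y0‖ < (2 * 2 ^ (J + 1))⁻¹ :=
    lt_of_lt_of_le hy ((min_le_left _ _).trans (min_le_left _ _))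
  have hy2 : ‖y - y0‖ < 8⁻¹ := lt_of_lt_of_le hy ((min_le_left _ _).trans (min_le_right _ _))
  have hy3 : ‖y - y0‖ < M.lev n0 / 8 / M.lev 1 := lt_of_lt_of_le hy (min_le_right _ _)
  have hmod : ∀ j, j ≤ J → mod (2 ^ (j + 1)) y ≤ b j := by
    intro j hj
    apply mod_near (by positivity)
    refine lt_of_lt_of_le hy1 ?_
    apply inv_anti₀ (by positivity)
    apply mul_le_mul_of_nonneg_left _ (by norm_num)
    exact pow_le_pow_right₀ (by norm_num) (by omega)
  have hmod4 : mod 4 y ≤ b 1 := by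
    have h1 := mod_near (y := y) (y0 := y0) (K := 2 ^ (1 + 1)) (by positivity) (by
      norm_num
      norm_num at hy2
      exact hy2)
    have e4 : (2 : ℝ) ^ (1 + 1) = 4 := by norm_num
    rw [e4] at h1
    simp only [hb]
    rw [e4]
    exact h1
  have hV := near_value he0.le he4 hmod4 hA
  have hV2 : 1 - η ≤ wt M A * (lin A y - cost M A) := by linarith
  have hlev : ∀ i ∈ A.support, (A i).natAbs ≤ n0 := by
    intro i hi
    by_contra hc
    rw [not_le] at hc
    obtain ⟨j, hj, hjr⟩ := hJ (A i).natAbs hc.le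
    have h1 := level_bound hyB hη2 hV2 (hmod j hj) (hS1 j) le_rfl (hηf j hj) hi
    linarith
  rw [Finset.mem_finsupp_iff]
  constructor
  · intro i hi
    have h1 := coord_bound hyB hη2 hV2 hlev hηM hi
    rw [hI, Set.Finite.mem_toFinset, Set.mem_ofPred_eq]
    have h2 := coord_le_norm (y - y0) i
    have h3 : M.lev 1 * ‖y - y0‖ ≤ M.lev n0 / 8 := by
      have := mul_le_mul_of_nonneg_left hy3.le hl1.le
      rwa [mul_div_cancel₀ _ hl1.ne'] at this
    rw [coord_sub] at h2
    have h4 : |y.coord i| ≤ |y.coord i - y0.coord i| + |y0.coord i| := by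
      have := abs_add_le (y.coord i - y0.coord i) (y0.coord i)
      rwa [sub_add_cancel] at this
    linarith
  · intro i hi
    by_cases hAi : A i = 0
    · rw [hAi, Finset.mem_Icc]
      constructor <;> omega
    · have h1 := hlev i (Finsupp.mem_support_iff.2 hAi)
      rw [Finset.mem_Icc]
      constructor <;> omega

end Pool.Agent.LibOrlicz
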