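import Pool.Agent.Lib_MP_b3cab1_an.Defs

set_option autoImplicit false

/-!
# Functionals built from levels

`lev n = T / 2 ^ n`.  An assignment `A : ℕ →₀ ℤ` gives to each coordinate `i` of its support a sign
and a level `n = |A i| ≥ 1`.
-/

open Filter Topology Set

namespace Pool.Agent.LibOrlicz

open OrliczSeq

namespace OrliczFunction

variable (M : OrliczFunction)

/-- the top level -/
noncomputable def top : ℝ := 2 * (1 + 2 / M 1)

lemma top_pos : 0 < M.top := by
  have := M.pos one_pos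
  unfold top
  positivity

/-- the levels -/
noncomputable def lev (n : ℕ) : ℝ := M.top / 2 ^ n

lemma lev_pos (n : ℕ) : 0 < M.lev n := by
  have := M.top_pos
  unfold lev
  positivity

lemma M_lev_pos (n : ℕ) : 0 < M (M.lev n) := M.pos (M.lev_pos n)

lemma lev_antitone {m n : ℕ} (h : m ≤ n) : M.lev n ≤ M.lev m := by
  have := M.top_pos
  unfold lev
  apply div_le_div_of_nonneg_left this.le (by positivity)
  exact pow_le_pow_right₀ (by norm_num) h

lemma lev_succ (n : ℕ) : M.lev n = 2 * M.lev (n + 1) := by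
  unfold lev
  rw [pow_succ]
  field_simp

lemma two_le_M_lev_one : 2 ≤ M (M.lev 1) := by
  have h1 := M.pos one_pos
  have e : M.lev 1 = (1 + 2 / M 1) * 1 := by
    unfold lev top
    ring
  have h2 := M.le_smul (l := 1 + 2 / M 1) (t := 1)
    (by have : 0 < 2 / M 1 := by positivity
        linarith) zero_le_one
  rw [e]
  refine le_trans ?_ h2
  rw [add_mul, div_mul_cancel₀ _ h1.ne']
  linarith

lemma tendsto_lev : Tendsto M.lev atTop (𝓝 0) := by
  have h : Tendsto (fun n : ℕ => M.top * (1 / 2) ^ n) atTop (𝓝 (M.top * 0)) :=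
    (tendsto_pow_atTop_nhds_zero_of_lt_one (by norm_num) (by norm_num)).const_mul _
  rw [mul_zero] at h
  refine h.congr (fun n => ?_)
  unfold lev
  rw [one_div, inv_pow]
  rfl

/-- the growth of `M` from the `n`-th level `t` to `2 ^ j t` -/
noncomputable def ratio (j n : ℕ) : ℝ := M (2 ^ j * M.lev n) / M (M.lev n)

lemma one_le_ratio (j n : ℕ) : 1 ≤ M.ratio j n := by
  unfold ratio
  rw [one_le_div (M.M_lev_pos n)]
  apply M.mono (M.lev_pos n).le
  have h1 : (1 : ℝ) ≤ 2 ^ j := one_le_pow₀ (by norm_num)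
  have h2 := mul_le_mul_of_nonneg_right h1 (M.lev_pos n).le
  linarith

lemma ratio_pos (j n : ℕ) : 0 < M.ratio j n := lt_of_lt_of_le one_pos (M.one_le_ratio j n)

/-- efficiency -/
noncomputable def eff (j n : ℕ) : ℝ := 1 / √(M.ratio j n)

lemma eff_pos (j n : ℕ) : 0 < M.eff j n := by
  have := M.ratio_pos j n
  unfold eff
  positivity

lemma eff_le_one (j n : ℕ) : M.eff j n ≤ 1 := by
  unfold eff
  rw [div_le_one (Real.sqrt_pos.2 (M.ratio_pos j n))]
  exact Real.one_le_sqrt.2 (M.one_le_ratio j n)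

lemma le_eff {j n : ℕ} {C : ℝ} (h : M.ratio j n ≤ C) : 1 / √C ≤ M.eff j n := by
  unfold eff
  exact one_div_le_one_div_of_le (Real.sqrt_pos.2 (M.ratio_pos j n)) (Real.sqrt_le_sqrt h)

lemma eff_le {j n : ℕ} {C : ℝ} (hC : 0 < C) (h : C ≤ M.ratio j n) : M.eff j n ≤ 1 / √C := by
  unfold eff
  exact one_div_le_one_div_of_le (Real.sqrt_pos.2 hC) (Real.sqrt_le_sqrt h)

/-- slope of the pieces of the `n`-th level -/
noncomputable def slope (n : ℕ) : ℝ := 2 * M (M.lev n) / M.lev n

lemma slope_pos (n : ℕ) : 0 < M.slope n := by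
  have := M.lev_pos n
  have := M.M_lev_pos n
  unfold slope
  positivity

lemma ratio_mul_piece_le (j n : ℕ) {u : ℝ} (hu : 0 ≤ u) :
    M.ratio j n * (M.slope n * u - M (M.lev n)) ≤ M (2 ^ (j + 1) * u) := by
  have ht := M.lev_pos n
  have hMt := M.M_lev_pos n
  set t := M.lev n with htdef
  have e : M.slope n * u - M t = M t * (2 * u / t - 1) := by
    unfold slope
    rw [← htdef]
    field_simp
  rw [e]
  rcases le_total (2 * u / t) 1 with h | h
  · have h1 : M t * (2 * u / t - 1) ≤ 0 :=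
      mul_nonpos_of_nonneg_of_nonpos hMt.le (by linarith)
    have h2 := mul_nonpos_of_nonneg_of_nonpos (M.ratio_pos j n).le h1
    exact h2.trans (M.nonneg (by positivity))
  · have h1 : M.ratio j n * (M t * (2 * u / t - 1)) ≤ M.ratio j n * (M t * (2 * u / t)) := by
      apply mul_le_mul_of_nonneg_left _ (M.ratio_pos j n).le
      apply mul_le_mul_of_nonneg_left _ hMt.le
      linarith
    refine h1.trans ?_
    have h2 : M.ratio j n * (M t * (2 * u / t)) = 2 * u / t * M (2 ^ j * t) := by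
      unfold ratio
      rw [← htdef]
      field_simp
    rw [h2]
    refine (M.le_smul h (by positivity)).trans (le_of_eq ?_)
    congr 1
    rw [pow_succ]
    field_simp

lemma piece_le (n : ℕ) {u : ℝ} (hu : 0 ≤ u) : M.slope n * u - M (M.lev n) ≤ M (2 * u) := by
  have h := M.ratio_mul_piece_le 0 n hu
  have e : M.ratio 0 n = 1 := by
    unfold ratio
    rw [pow_zero, one_mul, div_self (M.M_lev_pos n).ne']
  rw [e, one_mul, zero_add, pow_one] at h
  exact h

/-- pieces at coordinates at least the level -/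
lemma le_piece {n : ℕ} {u : ℝ} (h : M.lev n ≤ u) : M (M.lev n) ≤ M.slope n * u - M (M.lev n) := by
  have ht := M.lev_pos n
  have h1 := mul_le_mul_of_nonneg_left h (M.slope_pos n).le
  have h2 : M.slope n * M.lev n = 2 * M (M.lev n) := by
    unfold slope
    field_simp
  linarith

/-- pieces at coordinates below a quarter of the level -/
lemma piece_le_neg {n : ℕ} {u : ℝ} (h : u ≤ M.lev n / 4) :
    M.slope n * u - M (M.lev n) ≤ -(M (M.lev n) / 2) := by
  have ht := M.lev_pos n
  have h1 := mul_le_mul_of_nonneg_left h (M.slope_pos n).le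
  have h2 : M.slope n * (M.lev n / 4) = M (M.lev n) / 2 := by
    unfold slope
    field_simp
    ring
  linarith

/-- each `u` in `(0, T)` has a level `t` with `t ≤ u < 2 t` -/
lemma exists_lev {u : ℝ} (hu : 0 < u) (huT : u < M.lev 0) :
    ∃ n, 1 ≤ n ∧ M.lev n ≤ u ∧ u < 2 * M.lev n := by
  have h1 : ∃ n, M.lev n ≤ u := by
    obtain ⟨N, hN⟩ := eventually_atTop.1 ((tendsto_order.1 M.tendsto_lev).2 u hu)
    exact ⟨N, (hN N le_rfl).le⟩
  classical
  set n := Nat.find h1 with hn
  have h2 := Nat.find_spec h1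
  have h3 : n ≠ 0 := by
    intro h0
    rw [← hn, h0] at h2
    linarith
  obtain ⟨m, hm⟩ := Nat.exists_eq_succ_of_ne_zero h3
  refine ⟨n, by omega, h2, ?_⟩
  have h4 := Nat.find_min h1 (m := m) (by rw [← hn]; omega)
  rw [not_le] at h4
  rw [hm, Nat.succ_eq_add_one, ← M.lev_succ]
  exact h4

end OrliczFunction

/-! ### assignments -/

variable {M : OrliczFunction}

/-- Assignments of signs and levels to finitely many coordinates. -/
abbrev Asg := ℕ →₀ ℤ

/-- `p`-th term of the weight -/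
noncomputable def cj (M : OrliczFunction) (j : ℕ) (A : Asg) : ℝ :=
  (insert (1 : ℝ) (A.support.image (fun i => M.eff j (A i).natAbs))).min'
    (Finset.insert_nonempty _ _)

lemma cj_le_one (j : ℕ) (A : Asg) : cj M j A ≤ 1 :=
  Finset.min'_le _ _ (Finset.mem_insert_self _ _)

lemma cj_le_eff (j : ℕ) (A : Asg) {i : ℕ} (hi : i ∈ A.support) :
    cj M j A ≤ M.eff j (A i).natAbs :=
  Finset.min'_le _ _ (Finset.mem_insert_of_mem (Finset.mem_image_of_mem _ hi))

lemma le_cj {j : ℕ} {A : Asg} {e : ℝ} (h1 : e ≤ 1)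
    (h : ∀ i ∈ A.support, e ≤ M.eff j (A i).natAbs) : e ≤ cj M j A := by
  apply Finset.le_min'
  intro y hy
  rcases Finset.mem_insert.1 hy with h2 | h2
  · rw [h2]; exact h1
  · obtain ⟨i, hi, rfl⟩ := Finset.mem_image.1 h2
    exact h i hi

lemma cj_nonneg (j : ℕ) (A : Asg) : 0 ≤ cj M j A :=
  le_cj zero_le_one (fun _ _ => (M.eff_pos _ _).le)

lemma cj_filter (j : ℕ) (A : Asg) (p : ℕ → Prop) [DecidablePred p] :
    cj M j A ≤ cj M j (A.filter p) := by
  apply le_cj (cj_le_one j A)
  intro i hi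
  rw [Finsupp.support_filter, Finset.mem_filter] at hi
  rw [Finsupp.filter_apply_pos _ _ hi.2]
  exact cj_le_eff j A hi.1

/-- the weight -/
noncomputable def wt (M : OrliczFunction) (A : Asg) : ℝ :=
  1 + ∑' j : ℕ, (1 / 2) ^ (j + 1) * cj M j A

lemma summable_half : Summable fun j : ℕ => (1 / 2 : ℝ) ^ (j + 1) :=
  (summable_nat_add_iff 1).2 (summable_geometric_of_lt_one (by norm_num) (by norm_num))

lemma tsum_half : ∑' j : ℕ, (1 / 2 : ℝ) ^ (j + 1) = 1 := by
  simp_rw [pow_succ]
  rw [tsum_mul_right, tsum_geometric_of_lt_one (by norm_num) (by norm_num)]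
  norm_num

lemma summable_wt (A : Asg) : Summable fun j : ℕ => (1 / 2 : ℝ) ^ (j + 1) * cj M j A :=
  Summable.of_nonneg_of_le (fun j => mul_nonneg (by positivity) (cj_nonneg j A))
    (fun j => mul_le_of_le_one_right (by positivity) (cj_le_one j A)) summable_half

lemma one_le_wt (A : Asg) : 1 ≤ wt M A := by
  have : 0 ≤ ∑' j : ℕ, (1 / 2 : ℝ) ^ (j + 1) * cj M j A :=
    tsum_nonneg (fun j => mul_nonneg (by positivity) (cj_nonneg j A))
  unfold wt
  linarith

lemma wt_le_two (A : Asg) : wt M A ≤ 2 := by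
  have h : ∑' j : ℕ, (1 / 2 : ℝ) ^ (j + 1) * cj M j A ≤ ∑' j : ℕ, (1 / 2 : ℝ) ^ (j + 1) :=
    (summable_wt A).tsum_le_tsum
      (fun j => mul_le_of_le_one_right (by positivity) (cj_le_one j A)) summable_half
  rw [tsum_half] at h
  unfold wt
  linarith

/-- Dropping coordinates increases the weight. -/
lemma wt_filter (A : Asg) (p : ℕ → Prop) [DecidablePred p] (j : ℕ) {d : ℝ}
    (h : cj M j A + d ≤ cj M j (A.filter p)) :
    wt M A + (1 / 2) ^ (j + 1) * d ≤ wt M (A.filter p) := by
  have h1 : (1 / 2 : ℝ) ^ (j + 1) * (cj M j (A.filter p) - cj M j A) ≤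
      ∑' i : ℕ, (1 / 2 : ℝ) ^ (i + 1) * (cj M i (A.filter p) - cj M i A) := by
    have hs : Summable fun i : ℕ => (1 / 2 : ℝ) ^ (i + 1) * (cj M i (A.filter p) - cj M i A) := by
      simp_rw [mul_sub]
      exact (summable_wt _).sub (summable_wt _)
    exact hs.le_tsum j (fun i _ => mul_nonneg (by positivity) (sub_nonneg.2 (cj_filter i A p)))
  have h2 : ∑' i : ℕ, (1 / 2 : ℝ) ^ (i + 1) * (cj M i (A.filter p) - cj M i A) =
      wt M (A.filter p) - wt M A := by
    simp_rw [mul_sub]
    rw [(summable_wt _).tsum_sub (summable_wt _)]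
    unfold wt
    ring
  have h3 : (1 / 2 : ℝ) ^ (j + 1) * d ≤
      (1 / 2 : ℝ) ^ (j + 1) * (cj M j (A.filter p) - cj M j A) :=
    mul_le_mul_of_nonneg_left (by linarith) (by positivity)
  linarith

lemma wt_filter' (A : Asg) (p : ℕ → Prop) [DecidablePred p] : wt M A ≤ wt M (A.filter p) := by
  have := wt_filter (M := M) A p 0 (d := 0) (by rw [add_zero]; exact cj_filter 0 A p)
  simpa using this

/-- linear part -/
noncomputable def lin (A : Asg) (x : OrliczSeq M) : ℝ :=
  ∑ i ∈ A.support, M.slope (A i).natAbs * ((A i).sign * x.coord i)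

/-- cost -/
noncomputable def cost (M : OrliczFunction) (A : Asg) : ℝ :=
  ∑ i ∈ A.support, M (M.lev (A i).natAbs)

lemma cost_nonneg (A : Asg) : 0 ≤ cost M A := Finset.sum_nonneg (fun _ _ => (M.M_lev_pos _).le)

lemma lin_sub_cost (A : Asg) (x : OrliczSeq M) : lin A x - cost M A =
    ∑ i ∈ A.support, (M.slope (A i).natAbs * ((A i).sign * x.coord i) -
      M (M.lev (A i).natAbs)) := by
  unfold lin cost
  rw [Finset.sum_sub_distrib]

lemma sign_mul_le (k : ℤ) (v : ℝ) : (k.sign : ℝ) * v ≤ |v| := by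
  rcases lt_trichotomy k 0 with h | h | h
  · rw [Int.sign_eq_neg_one_of_neg h]
    push_cast
    linarith [neg_abs_le v]
  · rw [h]; simp
  · rw [Int.sign_eq_one_of_pos h]
    push_cast
    linarith [le_abs_self v]

lemma term_le (k : ℤ) (v : ℝ) : M.slope k.natAbs * (k.sign * v) - M (M.lev k.natAbs) ≤
    M.slope k.natAbs * |v| - M (M.lev k.natAbs) := by
  have := mul_le_mul_of_nonneg_left (sign_mul_le k v) (M.slope_pos k.natAbs).le
  linarith

lemma value_le (A : Asg) (x : OrliczSeq M) : lin A x - cost M A ≤ mod 2 x := by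
  rw [lin_sub_cost]
  refine le_trans (Finset.sum_le_sum (fun i _ => (term_le _ _).trans
    (M.piece_le _ (abs_nonneg _)))) ?_
  exact (x.summable two_pos).sum_le_tsum _ (fun i _ => M.nonneg (by positivity))

lemma value_filter_add (A : Asg) (x : OrliczSeq M) (p : ℕ → Prop) [DecidablePred p] :
    lin A x - cost M A = (lin (A.filter p) x - cost M (A.filter p)) +
      ∑ i ∈ A.support.filter (fun i => ¬ p i), (M.slope (A i).natAbs *
        ((A i).sign * x.coord i) - M (M.lev (A i).natAbs)) := by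
  rw [lin_sub_cost, lin_sub_cost, ← Finset.sum_filter_add_sum_filter_not A.support p]
  congr 1
  rw [Finsupp.support_filter]
  apply Finset.sum_congr rfl
  intro i hi
  rw [Finset.mem_filter] at hi
  rw [Finsupp.filter_apply_pos _ _ hi.2]

/-- dropping the coordinates with growth larger than `C` -/
lemma value_filter_ratio (A : Asg) (x : OrliczSeq M) (j : ℕ) {C : ℝ} (hC : 0 < C) :
    lin A x - cost M A ≤
      (lin (A.filter (fun i => M.ratio j (A i).natAbs ≤ C)) x -
        cost M (A.filter (fun i => M.ratio j (A i).natAbs ≤ C))) + mod (2 ^ (j + 1)) x / C := by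
  classical
  rw [value_filter_add A x (fun i => M.ratio j (A i).natAbs ≤ C)]
  apply add_le_add_right
  have h1 : ∀ i ∈ A.support.filter (fun i => ¬ M.ratio j (A i).natAbs ≤ C),
      M.slope (A i).natAbs * ((A i).sign * x.coord i) - M (M.lev (A i).natAbs) ≤
        M (2 ^ (j + 1) * |x.coord i|) / C := by
    intro i hi
    rw [Finset.mem_filter, not_le] at hi
    refine (term_le _ _).trans ?_
    rw [le_div_iff₀ hC]
    have h2 := M.ratio_mul_piece_le j (A i).natAbs (abs_nonneg (x.coord i))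
    rcases le_total (M.slope (A i).natAbs * |x.coord i| - M (M.lev (A i).natAbs)) 0 with h3 | h3
    · have h4 := mul_nonpos_of_nonpos_of_nonneg h3 hC.le
      exact h4.trans (M.nonneg (by positivity))
    · refine le_trans ?_ h2
      rw [mul_comm]
      exact mul_le_mul_of_nonneg_right hi.2.le h3
  refine (Finset.sum_le_sum h1).trans ?_
  rw [← Finset.sum_div]
  apply div_le_div_of_nonneg_right _ hC.le
  exact (x.summable (by positivity)).sum_le_tsum _ (fun i _ => M.nonneg (by positivity))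

/-! ### the functionals and the norm -/

/-- the functional of an assignment -/
noncomputable def fn (A : Asg) (x : OrliczSeq M) : ℝ := wt M A * lin A x / (1 + wt M A * cost M A)

lemma den_pos (A : Asg) : 0 < 1 + wt M A * cost M A := by
  have h1 := one_le_wt (M := M) A
  have h2 := cost_nonneg (M := M) A
  positivity

lemma lin_add (A : Asg) (x y : OrliczSeq M) : lin A (x + y) = lin A x + lin A y := by
  unfold lin
  rw [← Finset.sum_add_distrib]
  apply Finset.sum_congr rfl
  intro i _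
  rw [coord_add]
  ring

lemma lin_smul (A : Asg) (c : ℝ) (x : OrliczSeq M) : lin A (c • x) = c * lin A x := by
  unfold lin
  rw [Finset.mul_sum]
  apply Finset.sum_congr rfl
  intro i _
  rw [coord_smul]
  ring

lemma lin_neg (A : Asg) (x : OrliczSeq M) : lin (-A) x = - lin A x := by
  unfold lin
  rw [Finsupp.support_neg, ← Finset.sum_neg_distrib]
  apply Finset.sum_congr rfl
  intro i _
  rw [Finsupp.neg_apply, Int.natAbs_neg, Int.sign_neg]
  push_cast
  ring

lemma cost_neg (A : Asg) : cost M (-A) = cost M A := by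
  unfold cost
  rw [Finsupp.support_neg]
  apply Finset.sum_congr rfl
  intro i _
  rw [Finsupp.neg_apply, Int.natAbs_neg]

lemma cj_neg (j : ℕ) (A : Asg) : cj M j (-A) = cj M j A := by
  unfold cj
  congr 2
  rw [Finsupp.support_neg]
  apply Finset.image_congr
  intro i _
  show M.eff j ((-A) i).natAbs = M.eff j (A i).natAbs
  rw [Finsupp.neg_apply, Int.natAbs_neg]

lemma wt_neg (A : Asg) : wt M (-A) = wt M A := by
  unfold wt
  congr 1
  exact tsum_congr (fun j => by rw [cj_neg])

lemma fn_neg (A : Asg) (x : OrliczSeq M) : fn (-A) x = - fn A x := by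
  unfold fn
  rw [lin_neg, wt_neg, cost_neg]
  ring

lemma fn_add (A : Asg) (x y : OrliczSeq M) : fn A (x + y) = fn A x + fn A y := by
  unfold fn
  rw [lin_add]
  ring

lemma fn_smul (A : Asg) (c : ℝ) (x : OrliczSeq M) : fn A (c • x) = c * fn A x := by
  unfold fn
  rw [lin_smul]
  ring

lemma fn_le_iff (A : Asg) (x : OrliczSeq M) (s : ℝ) : fn A x ≤ s ↔
    wt M A * lin A x ≤ s * (1 + wt M A * cost M A) := by
  unfold fn
  rw [div_le_iff₀ (den_pos A)]

lemma fn_le_one_iff (A : Asg) (x : OrliczSeq M) : fn A x ≤ 1 ↔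
    wt M A * (lin A x - cost M A) ≤ 1 := by
  rw [fn_le_iff, one_mul, mul_sub]
  constructor <;> intro h <;> linarith

/-- `fn A` is bounded by `4 ‖x‖`. -/
lemma fn_le_norm (A : Asg) (x : OrliczSeq M) : fn A x ≤ 4 * ‖x‖ := by
  apply le_of_forall_pos_le_add
  intro ε hε
  set r := 4 * ‖x‖ + ε with hr
  have hr0 : 0 < r := by positivity
  have h1 : fn A (r⁻¹ • x) ≤ 1 := by
    rw [fn_le_one_iff]
    have h2 : mod 4 (r⁻¹ • x) ≤ 1 := by
      apply mod_le_one_of_norm
      rw [norm_smul, Real.norm_eq_abs, abs_of_pos (inv_pos.2 hr0), inv_mul_lt_iff₀ hr0, hr]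
      linarith
    have h3 := mod_mul_le (K := 4) (l := 1 / 2) (by norm_num) (by norm_num) (by norm_num)
      (r⁻¹ • x)
    have e : (1 / 2 : ℝ) * 4 = 2 := by norm_num
    rw [e] at h3
    have h4 := value_le A (r⁻¹ • x)
    have h5 : lin A (r⁻¹ • x) - cost M A ≤ 1 / 2 := by linarith
    calc wt M A * (lin A (r⁻¹ • x) - cost M A) ≤ wt M A * (1 / 2) :=
          mul_le_mul_of_nonneg_left h5 (by linarith [one_le_wt (M := M) A])
      _ ≤ 1 := by linarith [wt_le_two (M := M) A]
  rw [fn_smul, inv_mul_le_iff₀ hr0, mul_one] at h1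
  exact h1

lemma abs_fn_le (A : Asg) (x : OrliczSeq M) : |fn A x| ≤ 4 * ‖x‖ := by
  rw [abs_le]
  refine ⟨?_, fn_le_norm A x⟩
  have := fn_le_norm (-A) x
  rw [fn_neg] at this
  linarith

/-- the functional as a continuous linear map -/
noncomputable def fnL (M : OrliczFunction) (A : Asg) : OrliczSeq M →L[ℝ] ℝ :=
  LinearMap.mkContinuous
    { toFun := fn A
      map_add' := fn_add A
      map_smul' := fun c x => by rw [fn_smul]; rfl } 4
    (fun x => by rw [Real.norm_eq_abs]; exact abs_fn_le A x)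

@[simp] lemma fnL_apply (A : Asg) (x : OrliczSeq M) : fnL M A x = fn A x := rfl

/-- the new norm -/
noncomputable def nn (x : OrliczSeq M) : ℝ := ⨆ A : Asg, fn A x

lemma bddAbove_fn (x : OrliczSeq M) : BddAbove (range fun A : Asg => fn A x) :=
  ⟨4 * ‖x‖, by rintro _ ⟨A, rfl⟩; exact fn_le_norm A x⟩

lemma fn_le_nn (A : Asg) (x : OrliczSeq M) : fn A x ≤ nn x := le_ciSup (bddAbove_fn x) A

lemma nn_le {x : OrliczSeq M} {s : ℝ} (h : ∀ A, fn A x ≤ s) : nn x ≤ s := ciSup_le h

lemma nn_le_norm (x : OrliczSeq M) : nn x ≤ 4 * ‖x‖ := nn_le (fun A => fn_le_norm A x)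

lemma nn_nonneg (x : OrliczSeq M) : 0 ≤ nn x := by
  have h := fn_le_nn (M := M) 0 x
  have e : fn (0 : Asg) x = 0 := by
    unfold fn lin
    simp
  rwa [e] at h

lemma nn_add_le (x y : OrliczSeq M) : nn (x + y) ≤ nn x + nn y :=
  nn_le (fun A => by rw [fn_add]; exact add_le_add (fn_le_nn A x) (fn_le_nn A y))

lemma nn_neg (x : OrliczSeq M) : nn (-x) = nn x := by
  have key : ∀ y : OrliczSeq M, nn (-y) ≤ nn y := fun y => nn_le (fun A => by
    have h := fn_le_nn (-A) y
    have e : -y = (-1 : ℝ) • y := by simp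
    rw [fn_neg] at h
    rw [e, fn_smul]
    linarith)
  apply le_antisymm (key x)
  have := key (-x)
  rwa [neg_neg] at this

lemma nn_smul_nonneg {c : ℝ} (hc : 0 ≤ c) (x : OrliczSeq M) : nn (c • x) = c * nn x := by
  have key : ∀ {c : ℝ} (_ : 0 ≤ c) (x : OrliczSeq M), nn (c • x) ≤ c * nn x := fun hc x =>
    nn_le (fun A => by rw [fn_smul]; exact mul_le_mul_of_nonneg_left (fn_le_nn A x) hc)
  apply le_antisymm (key hc x)
  rcases hc.eq_or_lt with h | h
  · rw [← h, zero_mul]; exact nn_nonneg _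
  · have h1 := key (inv_nonneg.2 hc) (c • x)
    rw [smul_smul, inv_mul_cancel₀ h.ne', one_smul] at h1
    have h2 := mul_le_mul_of_nonneg_left h1 hc
    rwa [← mul_assoc, mul_inv_cancel₀ h.ne', one_mul] at h2

lemma nn_smul (c : ℝ) (x : OrliczSeq M) : nn (c • x) = |c| * nn x := by
  rcases le_total 0 c with h | h
  · rw [nn_smul_nonneg h, abs_of_nonneg h]
  · have h1 := nn_smul_nonneg (neg_nonneg.2 h) x
    rw [neg_smul, nn_neg] at h1
    rw [h1, abs_of_nonpos h]

end Pool.Agent.LibOrlicz
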