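import Mathlib

set_option autoImplicit false

/-!
# Norms that are locally the maximum of finitely many functionals
-/

open Filter Topology Set

namespace Pool.Agent.LibOrlicz

/-- `X` admits a continuous bump function which locally depends on finitely many coordinates: a
continuous function, not identically zero, with bounded support, which near each point is a
continuous function of finitely many continuous linear functionals. -/
def HasLFCBump (X : Type) [NormedAddCommGroup X] [NormedSpace ℝ X] : Prop :=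
  ∃ f : X → ℝ, Continuous f ∧ f ≠ 0 ∧ Bornology.IsBounded (Function.support f) ∧
    ∀ x : X, ∃ U ∈ nhds x, ∃ n : ℕ, ∃ φ : Fin n → (X →L[ℝ] ℝ),
      ∃ g : (Fin n → ℝ) → ℝ, Continuous g ∧ ∀ z ∈ U, f z = g (fun i => φ i z)

/-- `X` is linearly isomorphic to a normed space `Y` in which the closed unit ball of each finite
dimensional subspace is the convex hull of finitely many points. -/
def IsoPolyhedral (X : Type) [NormedAddCommGroup X] [NormedSpace ℝ X] : Prop :=
  ∃ (Y : Type) (_ : NormedAddCommGroup Y) (_ : NormedSpace ℝ Y),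
    (∀ E : Submodule ℝ Y, FiniteDimensional ℝ E →
      ∃ S : Finset Y, Metric.closedBall (0 : Y) 1 ∩ (E : Set Y) = convexHull ℝ (S : Set Y)) ∧
    Nonempty (X ≃L[ℝ] Y)

section General

variable {Y : Type} [NormedAddCommGroup Y] [NormedSpace ℝ Y] {ι : Type}

lemma exists_small (𝒜 : Finset ι) (a b : ι → ℝ) (hb : ∀ i, 0 ≤ b i) :
    ∃ ε : ℝ, 0 < ε ∧ ∀ i ∈ 𝒜, 0 < a i → ε * b i ≤ a i := by
  classical
  induction 𝒜 using Finset.induction with
  | empty => exact ⟨1, one_pos, fun i hi => by simp at hi⟩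
  | insert i 𝒜 hi ih =>
    obtain ⟨ε, hε, h⟩ := ih
    by_cases hai : 0 < a i
    · refine ⟨min ε (a i / (b i + 1)), ?_, ?_⟩
      · have := hb i
        positivity
      · intro k hk hak
        rcases Finset.mem_insert.1 hk with rfl | hk
        · have hbk := hb k
          calc min ε (a k / (b k + 1)) * b k ≤ (a k / (b k + 1)) * b k :=
                mul_le_mul_of_nonneg_right (min_le_right _ _) hbk
            _ ≤ a k / (b k + 1) * (b k + 1) :=
                mul_le_mul_of_nonneg_left (by linarith) (by positivity)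
            _ = a k := by field_simp
        · exact (mul_le_mul_of_nonneg_right (min_le_left _ _) (hb k)).trans (h k hk hak)
    · refine ⟨ε, hε, fun k hk hak => ?_⟩
      rcases Finset.mem_insert.1 hk with rfl | hk
      · exact absurd hak hai
      · exact h k hk hak

/-- A ball of a finite dimensional subspace given by finitely many inequalities is a polytope. -/
lemma exists_convexHull (F : ι → (Y →L[ℝ] ℝ)) (E : Submodule ℝ Y) [FiniteDimensional ℝ E]
    (𝒜 : Finset ι) (h : ∀ z ∈ E, ‖z‖ ≤ 1 ↔ ∀ i ∈ 𝒜, F i z ≤ 1) :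
    ∃ S : Finset Y, Metric.closedBall (0 : Y) 1 ∩ (E : Set Y) = convexHull ℝ (S : Set Y) := by
  classical
  set K : Set Y := Metric.closedBall (0 : Y) 1 ∩ (E : Set Y) with hK
  have hmem : ∀ z, z ∈ K ↔ z ∈ E ∧ ∀ i ∈ 𝒜, F i z ≤ 1 := by
    intro z
    rw [hK, mem_inter_iff, mem_closedBall_zero_iff]
    constructor
    · rintro ⟨h1, h2⟩
      exact ⟨h2, (h z h2).1 h1⟩
    · rintro ⟨h1, h2⟩
      exact ⟨(h z h1).2 h2, h1⟩
  have hKc : IsCompact K := by
    have h1 : K = (Subtype.val : E → Y) '' (Metric.closedBall (0 : E) 1) := by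
      ext z
      rw [hK, mem_inter_iff, mem_closedBall_zero_iff, mem_image]
      constructor
      · rintro ⟨h1, h2⟩
        exact ⟨⟨z, h2⟩, by rw [mem_closedBall_zero_iff]; exact h1, rfl⟩
      · rintro ⟨w, hw, rfl⟩
        rw [mem_closedBall_zero_iff] at hw
        exact ⟨hw, w.2⟩
    rw [h1]
    exact (isCompact_closedBall _ _).image continuous_subtype_val
  have hKconv : Convex ℝ K := (convex_closedBall _ _).inter E.convex
  have hinj : InjOn (fun z => 𝒜.filter (fun i => F i z = 1)) (K.extremePoints ℝ) := by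
    intro z hz z' hz' hJ
    have hJ' : ∀ i ∈ 𝒜, F i z = 1 → F i z' = 1 := by
      intro i hi h1
      have : i ∈ 𝒜.filter (fun i => F i z = 1) := Finset.mem_filter.2 ⟨hi, h1⟩
      rw [show 𝒜.filter (fun i => F i z = 1) = 𝒜.filter (fun i => F i z' = 1) from hJ] at this
      exact (Finset.mem_filter.1 this).2
    have hzK := (hmem z).1 hz.1
    have hzK' := (hmem z').1 hz'.1
    obtain ⟨ε, hε, hε2⟩ := exists_small 𝒜 (fun i => 1 - F i z) (fun i => |F i (z - z')|)
      (fun i => abs_nonneg _)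
    have key : ∀ s : ℝ, |s| ≤ ε → z + s • (z - z') ∈ K := by
      intro s hs
      rw [hmem]
      refine ⟨E.add_mem hzK.1 (E.smul_mem _ (E.sub_mem hzK.1 hzK'.1)), fun i hi => ?_⟩
      rw [map_add, map_smul, smul_eq_mul]
      rcases (hzK.2 i hi).eq_or_lt with h1 | h1
      · rw [map_sub, h1, hJ' i hi h1, sub_self, mul_zero, add_zero]
      · have h2 := hε2 i hi (by linarith)
        have h3 : s * F i (z - z') ≤ |s| * |F i (z - z')| := by
          rw [← abs_mul]
          exact le_abs_self _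
        have h4 : |s| * |F i (z - z')| ≤ ε * |F i (z - z')| :=
          mul_le_mul_of_nonneg_right hs (abs_nonneg _)
        linarith
    have h1 := key ε (by rw [abs_of_pos hε])
    have h2 := key (-ε) (by rw [abs_neg, abs_of_pos hε])
    have h3 := hz.2 h1 h2 (by
      refine ⟨1 / 2, 1 / 2, by norm_num, by norm_num, by norm_num, ?_⟩
      module)
    have h4 : ε • (z - z') = 0 := by
      have h5 : z + ε • (z - z') = z + 0 := by rw [h3, add_zero]
      exact add_left_cancel h5
    rcases smul_eq_zero.1 h4 with h5 | h5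
    · exact absurd h5 hε.ne'
    · exact sub_eq_zero.1 h5
  have hfin : (K.extremePoints ℝ).Finite := by
    apply Set.Finite.of_finite_image _ hinj
    apply (𝒜.powerset.finite_toSet).subset
    rintro _ ⟨z, _, rfl⟩
    simp only [Finset.coe_powerset, mem_preimage, mem_powerset_iff, Finset.coe_subset]
    exact Finset.filter_subset _ _
  refine ⟨hfin.toFinset, ?_⟩
  rw [hfin.coe_toFinset]
  have h1 := closure_convexHull_extremePoints hKc hKconv
  rw [(hfin.isClosed_convexHull ℝ).closure_eq] at h1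
  exact h1.symm

/-- Hypothesis: the norm is the supremum of the functionals `F i`, and near each point only
finitely many of the functionals are near optimal. -/
structure LocFin (F : ι → (Y →L[ℝ] ℝ)) : Prop where
  le : ∀ i y, F i y ≤ ‖y‖
  sup : ∀ (y : Y) (s : ℝ), (∀ i, F i y ≤ s) → ‖y‖ ≤ s
  fin : ∀ y : Y, ∃ δ : ℝ, 0 < δ ∧ ∃ e : ℝ, 0 < e ∧ ∃ 𝒜 : Finset ι, ∀ z : Y, ‖z - y‖ < δ →
    ‖z‖ ≤ 1 → ∀ i, 1 - e ≤ F i z → i ∈ 𝒜

variable {F : ι → (Y →L[ℝ] ℝ)}

lemma LocFin.attained (hF : LocFin F) (y : Y) : ∃ δ : ℝ, 0 < δ ∧ ∃ 𝒜 : Finset ι, ∀ z : Y,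
    ‖z - y‖ < δ → ‖z‖ = 1 → ∃ i ∈ 𝒜, F i z = 1 := by
  obtain ⟨δ, hδ, e, he, 𝒜, h⟩ := hF.fin y
  refine ⟨δ, hδ, 𝒜, fun z hz hz1 => ?_⟩
  by_contra hcon
  push Not at hcon
  have hlt : ∀ i ∈ 𝒜, F i z < 1 := fun i hi =>
    lt_of_le_of_ne ((hF.le i z).trans hz1.le) (hcon i hi)
  have hex : ∃ m : ℝ, m < 1 ∧ ∀ i ∈ 𝒜, F i z ≤ m := by
    rcases 𝒜.eq_empty_or_nonempty with h0 | h0
    · exact ⟨0, one_pos, fun i hi => by rw [h0] at hi; simp at hi⟩
    · refine ⟨𝒜.sup' h0 (fun i => F i z), ?_, fun i hi => Finset.le_sup' (fun i => F i z) hi⟩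
      rw [Finset.sup'_lt_iff]
      exact hlt
  obtain ⟨m, hm, hm2⟩ := hex
  have h1 : ‖z‖ ≤ max (1 - e) m := by
    apply hF.sup
    intro i
    by_cases hi : i ∈ 𝒜
    · exact (hm2 i hi).trans (le_max_right _ _)
    · have : ¬ (1 - e ≤ F i z) := fun hc => hi (h z hz hz1.le i hc)
      exact (not_le.1 this).le.trans (le_max_left _ _)
  have h2 : max (1 - e) m < 1 := max_lt (by linarith) hm
  linarith

lemma LocFin.attained_near (hF : LocFin F) {x : Y} (hx : x ≠ 0) :
    ∃ 𝒜 : Finset ι, ∀ᶠ z in 𝓝 x, ∃ i ∈ 𝒜, F i z = ‖z‖ := by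
  obtain ⟨δ, hδ, 𝒜, h⟩ := hF.attained (‖x‖⁻¹ • x)
  refine ⟨𝒜, ?_⟩
  have hc : ContinuousAt (fun z : Y => ‖z‖⁻¹ • z) x :=
    (continuousAt_id.norm.inv₀ (norm_ne_zero_iff.2 hx)).smul continuousAt_id
  have h1 : ∀ᶠ z in 𝓝 x, ‖‖z‖⁻¹ • z - ‖x‖⁻¹ • x‖ < δ := by
    have := hc.eventually (Metric.ball_mem_nhds (‖x‖⁻¹ • x) hδ)
    filter_upwards [this] with z hz
    rwa [dist_eq_norm] at hz
  have h2 : ∀ᶠ z in 𝓝 x, z ≠ 0 := isOpen_ne.mem_nhds hx
  filter_upwards [h1, h2] with z hz hz0
  have hn : ‖z‖ ≠ 0 := norm_ne_zero_iff.2 hz0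
  obtain ⟨i, hi, h3⟩ := h _ hz (by rw [norm_smul, norm_inv, norm_norm, inv_mul_cancel₀ hn])
  refine ⟨i, hi, ?_⟩
  rw [map_smul, smul_eq_mul, inv_mul_eq_iff_eq_mul₀ hn, mul_one] at h3
  exact h3

/-- the balls of the finite dimensional subspaces are polytopes -/
theorem LocFin.polyhedral (hF : LocFin F) (E : Submodule ℝ Y) [FiniteDimensional ℝ E] :
    ∃ S : Finset Y, Metric.closedBall (0 : Y) 1 ∩ (E : Set Y) = convexHull ℝ (S : Set Y) := by
  classical
  choose δ hδ 𝒜 h𝒜 using hF.attained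
  have hcomp : IsCompact (Metric.sphere (0 : E) 1) := isCompact_sphere _ _
  obtain ⟨t, ht⟩ := hcomp.elim_finite_subcover (fun y : E => Metric.ball y (δ y))
    (fun y => Metric.isOpen_ball) (fun y _ => mem_iUnion.2 ⟨y, Metric.mem_ball_self (hδ y)⟩)
  apply exists_convexHull F E (t.biUnion (fun y => 𝒜 y))
  intro z hz
  constructor
  · intro h1 i _
    exact (hF.le i z).trans h1
  · intro h1
    rcases eq_or_ne z 0 with h0 | h0
    · rw [h0, norm_zero]; exact zero_le_one
    · have hn : ‖z‖ ≠ 0 := norm_ne_zero_iff.2 h0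
      have hzs : (⟨‖z‖⁻¹ • z, E.smul_mem _ hz⟩ : E) ∈ Metric.sphere (0 : E) 1 := by
        rw [mem_sphere_zero_iff_norm]
        show ‖‖z‖⁻¹ • z‖ = 1
        rw [norm_smul, norm_inv, norm_norm, inv_mul_cancel₀ hn]
      obtain ⟨y, hy, hyz⟩ := mem_iUnion₂.1 (ht hzs)
      rw [mem_ball_iff_norm] at hyz
      obtain ⟨i, hi, h3⟩ := h𝒜 (y : Y) (‖z‖⁻¹ • z) hyz (by
        rw [norm_smul, norm_inv, norm_norm, inv_mul_cancel₀ hn])
      rw [map_smul, smul_eq_mul, inv_mul_eq_iff_eq_mul₀ hn, mul_one] at h3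
      rw [← h3]
      exact h1 i (Finset.mem_biUnion.2 ⟨y, hy, hi⟩)

/-- such a norm gives a bump function which locally depends on finitely many coordinates -/
theorem LocFin.hasLFCBump (hF : LocFin F) [Nontrivial Y] : HasLFCBump Y := by
  classical
  refine ⟨fun x => max 0 (min 1 (2 - ‖x‖)), by fun_prop, ?_, ?_, ?_⟩
  · intro h
    have := congrFun h 0
    simp at this
  · apply (Metric.isBounded_closedBall (x := (0 : Y)) (r := 2)).subset
    intro x hx
    rw [Function.mem_support] at hx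
    rw [mem_closedBall_zero_iff]
    by_contra hcon
    rw [not_le] at hcon
    apply hx
    apply max_eq_left
    exact (min_le_right _ _).trans (by linarith)
  · intro x
    rcases eq_or_ne x 0 with h0 | h0
    · refine ⟨Metric.ball 0 1, by rw [h0]; exact Metric.ball_mem_nhds _ one_pos, 0,
        fun i => i.elim0, fun _ => 1, continuous_const, fun z hz => ?_⟩
      rw [mem_ball_zero_iff] at hz
      show max 0 (min 1 (2 - ‖z‖)) = 1
      rw [min_eq_left (by linarith), max_eq_right zero_le_one]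
    · obtain ⟨𝒜, h𝒜⟩ := hF.attained_near h0
      obtain ⟨i0, hi0, _⟩ := h𝒜.self_of_nhds
      have hne : 𝒜.Nonempty := ⟨i0, hi0⟩
      set n := 𝒜.card with hn
      have hn0 : 0 < n := Finset.card_pos.2 hne
      set e := 𝒜.equivFin.symm with he
      have hneU : (Finset.univ : Finset (Fin n)).Nonempty := ⟨⟨0, hn0⟩, Finset.mem_univ _⟩
      refine ⟨_, h𝒜, n, fun k => F (e k), fun v => max 0 (min 1 (2 -
        Finset.univ.sup' hneU v)), ?_, ?_⟩
      · have hsup : Continuous fun v : Fin n → ℝ => Finset.univ.sup' hneU v :=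
          Continuous.finset_sup'_apply hneU (fun k _ => continuous_apply k)
        fun_prop
      · rintro z ⟨i, hi, hiz⟩
        show max 0 (min 1 (2 - ‖z‖)) = _
        have h1 : Finset.univ.sup' hneU (fun k : Fin n => F (e k) z) = ‖z‖ := by
          apply le_antisymm
          · exact Finset.sup'_le _ _ (fun k _ => hF.le _ z)
          · rw [← hiz]
            have h2 := Finset.le_sup' (fun k : Fin n => F (e k) z)
              (Finset.mem_univ (𝒜.equivFin ⟨i, hi⟩))
            simpa [he] using h2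
        exact congrArg (fun s => max 0 (min 1 (2 - s))) h1.symm

end General

/-- Bumps are transported by isomorphisms. -/
lemma HasLFCBump.of_equiv {X Y : Type} [NormedAddCommGroup X] [NormedSpace ℝ X]
    [NormedAddCommGroup Y] [NormedSpace ℝ Y] (T : X ≃L[ℝ] Y) (h : HasLFCBump Y) :
    HasLFCBump X := by
  obtain ⟨f, hf, hf0, hfb, hfl⟩ := h
  refine ⟨f ∘ T, hf.comp T.continuous, ?_, ?_, ?_⟩
  · intro h0
    apply hf0
    funext y
    have := congrFun h0 (T.symm y)
    simpa using this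
  · have h1 : Function.support (f ∘ T) = T.symm '' Function.support f := by
      ext x
      rw [Function.mem_support, mem_image]
      constructor
      · intro hx
        exact ⟨T x, hx, by simp⟩
      · rintro ⟨y, hy, rfl⟩
        simpa using hy
    rw [h1]
    obtain ⟨R, hR⟩ := hfb.exists_norm_le
    rw [isBounded_iff_forall_norm_le]
    refine ⟨‖(T.symm : Y →L[ℝ] X)‖ * R, ?_⟩
    rintro _ ⟨y, hy, rfl⟩
    refine ((T.symm : Y →L[ℝ] X).le_opNorm y).trans ?_
    exact mul_le_mul_of_nonneg_left (hR y hy) (norm_nonneg _)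
  · intro x
    obtain ⟨U, hU, n, φ, g, hg, h1⟩ := hfl (T x)
    refine ⟨T ⁻¹' U, T.continuous.continuousAt hU, n, fun i => (φ i).comp (T : X →L[ℝ] Y), g, hg,
      fun z hz => ?_⟩
    exact h1 _ hz

end Pool.Agent.LibOrlicz
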