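import Pool.Agent.Lib_MP_b3cab1_an.Renorm

set_option autoImplicit false

/-!
# If there is a slow sequence then there is no bump function that locally depends on finitely many
coordinates
-/

open Filter Topology Set

namespace Pool.Agent.LibOrlicz

open OrliczSeq

variable {M : OrliczFunction}

/-- level of the `i`-th coordinate -/
def nu (i : ℕ) : ℕ := (Nat.unpair i).1

/-- all coordinates are `0` or `± R t` -/
def Pat (t : ℕ → ℝ) (R : ℝ) (z : OrliczSeq M) : Prop :=
  ∀ i, z.coord i = 0 ∨ z.coord i = R * t (nu i) ∨ z.coord i = -(R * t (nu i))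

/-- `z'` extends `z` -/
def Ext (z z' : OrliczSeq M) : Prop := ∀ i, z.coord i = 0 ∨ z'.coord i = z.coord i

lemma Ext.trans {z z' z'' : OrliczSeq M} (h : Ext z z') (h' : Ext z' z'') : Ext z z'' := by
  intro i
  rcases h i with h1 | h1
  · exact Or.inl h1
  · rcases h' i with h2 | h2
    · left; rw [← h1]; exact h2
    · right; rw [h2, h1]

section

variable {t : ℕ → ℝ} {R : ℝ}

lemma Pat.abs {z : OrliczSeq M} (ht : ∀ n, 0 < t n) (hR : 0 < R) (h : Pat t R z) (i : ℕ) :
    z.coord i = 0 ∨ |z.coord i| = R * t (nu i) := by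
  have := ht (nu i)
  have h0 : 0 < R * t (nu i) := by positivity
  rcases h i with h1 | h1 | h1
  · exact Or.inl h1
  · right; rw [h1, abs_of_pos h0]
  · right; rw [h1, abs_neg, abs_of_pos h0]

lemma Pat.sub {z z' : OrliczSeq M} (h : Pat t R z) (h' : Pat t R z') (he : Ext z z') :
    Pat t R (z' - z) := by
  intro i
  rw [coord_sub]
  rcases he i with h1 | h1
  · rw [h1, sub_zero]; exact h' i
  · left; rw [h1, sub_self]

lemma mass_add {z z' : OrliczSeq M} {K : ℝ} (hK : 0 < K) (he : Ext z z') :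
    mod K z' = mod K z + mod K (z' - z) := by
  unfold mod
  rw [← (z.summable hK).tsum_add ((z' - z).summable hK)]
  apply tsum_congr
  intro i
  rw [coord_sub]
  rcases he i with h1 | h1
  · rw [h1, sub_zero, abs_zero, mul_zero, M.map_zero, zero_add]
  · rw [h1, sub_self, abs_zero, mul_zero, M.map_zero, add_zero]

lemma mod_le_mass (ht : ∀ n, 0 < t n) (hR : 0 < R)
    (hC : ∀ K : ℝ, 0 < K → ∃ C : ℝ, ∀ n, M (K * t n) ≤ C * M (t n)) {K : ℝ} (hK : 0 < K) :
    ∃ C : ℝ, 0 ≤ C ∧ ∀ z : OrliczSeq M, Pat t R z → mod K z ≤ C * mod R⁻¹ z := by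
  obtain ⟨C, h⟩ := hC (K * R) (by positivity)
  refine ⟨|C|, abs_nonneg _, fun z hz => ?_⟩
  unfold mod
  rw [← tsum_mul_left]
  refine (z.summable hK).tsum_le_tsum (fun i => ?_) ((z.summable (inv_pos.2 hR)).mul_left _)
  rcases hz.abs ht hR i with h1 | h1
  · rw [h1, abs_zero, mul_zero, mul_zero, M.map_zero, mul_zero]
  · rw [h1, inv_mul_cancel_left₀ hR.ne', ← mul_assoc]
    refine (h (nu i)).trans ?_
    exact mul_le_mul_of_nonneg_right (le_abs_self C) (M.nonneg (ht _).le)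

/-! ### the limit of an increasing sequence -/

lemma exists_limit (ht : ∀ n, 0 < t n) (hR : 0 < R)
    (hC : ∀ K : ℝ, 0 < K → ∃ C : ℝ, ∀ n, M (K * t n) ≤ C * M (t n))
    (z : ℕ → OrliczSeq M) (hP : ∀ k, Pat t R (z k)) (hE : ∀ k l, k ≤ l → Ext (z k) (z l))
    (hm : ∀ k, mod R⁻¹ (z k) ≤ 1) :
    ∃ w : OrliczSeq M, Pat t R w ∧ (∀ k, Ext (z k) w) ∧ mod R⁻¹ w ≤ 1 ∧
      Tendsto z atTop (𝓝 w) ∧ Tendsto (fun k => mod R⁻¹ (z k)) atTop (𝓝 (mod R⁻¹ w)) := by
  classical
  have hRi : 0 < R⁻¹ := inv_pos.2 hR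
  have hlim : ∀ i, ∃ (c : ℝ) (K0 : ℕ), ∀ k, K0 ≤ k → (z k).coord i = c := by
    intro i
    by_cases h : ∃ k, (z k).coord i ≠ 0
    · obtain ⟨k, hk⟩ := h
      refine ⟨(z k).coord i, k, fun l hl => ?_⟩
      rcases hE k l hl i with h1 | h1
      · exact absurd h1 hk
      · exact h1
    · push Not at h
      exact ⟨0, 0, fun k _ => h k⟩
  choose c K0 hc using hlim
  have hfin : ∀ I : Finset ℕ, ∃ k0, ∀ k, k0 ≤ k → ∀ i ∈ I, (z k).coord i = c i := by
    intro I
    refine ⟨I.sup K0, fun k hk i hi => hc i k ?_⟩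
    exact (Finset.le_sup hi).trans hk
  have hsum : ∀ K : ℝ, 0 < K → ∃ C : ℝ, ∀ I : Finset ℕ, ∑ i ∈ I, M (K * |c i|) ≤ C := by
    intro K hK
    obtain ⟨C, hC0, h⟩ := mod_le_mass (M := M) ht hR hC hK
    refine ⟨C, fun I => ?_⟩
    obtain ⟨k, hk⟩ := hfin I
    have h1 : ∑ i ∈ I, M (K * |c i|) = ∑ i ∈ I, M (K * |(z k).coord i|) :=
      Finset.sum_congr rfl (fun i hi => by rw [hk k le_rfl i hi])
    rw [h1]
    refine (((z k).summable hK).sum_le_tsum I (fun i _ => M.nonneg (by positivity))).trans ?_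
    refine (h (z k) (hP k)).trans ?_
    calc C * mod R⁻¹ (z k) ≤ C * 1 := mul_le_mul_of_nonneg_left (hm k) hC0
      _ = C := mul_one C
  have hsummable : ∀ K : ℝ, 0 < K → Summable fun i => M (K * |c i|) := by
    intro K hK
    obtain ⟨C, h⟩ := hsum K hK
    exact summable_of_sum_le (fun i => M.nonneg (by positivity)) h
  set w : OrliczSeq M := OrliczSeq.mk c hsummable with hw
  have hwc : ∀ i, w.coord i = c i := fun i => rfl
  have hPw : Pat t R w := by
    intro i
    rw [hwc, ← hc i (K0 i) le_rfl]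
    exact hP _ i
  have hEw : ∀ k, Ext (z k) w := by
    intro k i
    rw [hwc]
    rcases hE k (max k (K0 i)) (le_max_left _ _) i with h1 | h1
    · exact Or.inl h1
    · right
      rw [← hc i (max k (K0 i)) (le_max_right _ _)]
      exact h1
  have hmono : ∀ k, mod R⁻¹ (z k) ≤ mod R⁻¹ w := by
    intro k
    rw [mass_add hRi (hEw k)]
    linarith [mod_nonneg hRi.le (w - z k)]
  have hmass : Tendsto (fun k => mod R⁻¹ (z k)) atTop (𝓝 (mod R⁻¹ w)) := by
    rw [Metric.tendsto_atTop]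
    intro ε hε
    have h1 := (w.summable hRi).hasSum
    have h2 : ∀ᶠ I : Finset ℕ in atTop, mod R⁻¹ w - ε < ∑ i ∈ I, M (R⁻¹ * |w.coord i|) :=
      (tendsto_order.1 h1).1 _ (by show mod R⁻¹ w - ε < mod R⁻¹ w; linarith)
    obtain ⟨I, hI⟩ := h2.exists
    obtain ⟨k0, hk0⟩ := hfin I
    refine ⟨k0, fun k hk => ?_⟩
    have h3 : ∑ i ∈ I, M (R⁻¹ * |w.coord i|) = ∑ i ∈ I, M (R⁻¹ * |(z k).coord i|) :=
      Finset.sum_congr rfl (fun i hi => by rw [hk0 k hk i hi, hwc])
    have h4 := ((z k).summable hRi).sum_le_tsum I (fun i _ => M.nonneg (by positivity))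
    have h5 : mod R⁻¹ w - ε < mod R⁻¹ (z k) := by
      rw [h3] at hI
      exact hI.trans_le h4
    rw [Real.dist_eq, abs_lt]
    constructor
    · linarith
    · linarith [hmono k]
  have hz : Tendsto z atTop (𝓝 w) := by
    rw [Metric.tendsto_atTop]
    intro δ hδ
    obtain ⟨C, hC0, h⟩ := mod_le_mass (M := M) ht hR hC (K := 2 / δ) (by positivity)
    rw [Metric.tendsto_atTop] at hmass
    obtain ⟨k0, hk0⟩ := hmass (1 / (C + 1)) (by positivity)
    refine ⟨k0, fun k hk => ?_⟩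
    have h1 := hk0 k hk
    rw [Real.dist_eq, abs_lt] at h1
    have h2 : mod R⁻¹ (w - z k) < 1 / (C + 1) := by
      have := mass_add hRi (hEw k)
      linarith
    have h3 : mod (2 / δ) (w - z k) ≤ 1 := by
      refine (h _ ((hP k).sub hPw (hEw k))).trans ?_
      calc C * mod R⁻¹ (w - z k) ≤ C * (1 / (C + 1)) := mul_le_mul_of_nonneg_left h2.le hC0
        _ ≤ 1 := by
          rw [mul_one_div, div_le_one (by linarith)]
          linarith
    have h4 := norm_le_of_mod (by positivity) h3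
    rw [dist_comm, dist_eq_norm]
    have h5 : (2 / δ)⁻¹ = δ / 2 := by rw [inv_div]
    rw [h5] at h4
    linarith
  exact ⟨w, hPw, hEw, le_of_tendsto' hmass hm, hz, hmass⟩

/-! ### small extensions -/

lemma mod_pair {i i' : ℕ} (h : i ≠ i') {a : ℝ} (ha : 0 < a) (K : ℝ) :
    mod K (a • unitVec M i - a • unitVec M i') = 2 * M (K * a) := by
  unfold mod
  rw [tsum_eq_sum (s := {i, i'})]
  · rw [Finset.sum_pair h]
    simp only [coord_sub, coord_smul, coord_unitVec]
    rw [Pi.single_eq_same, Pi.single_eq_same, Pi.single_eq_of_ne h.symm, Pi.single_eq_of_ne h]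
    rw [mul_one, mul_zero, sub_zero, zero_sub, abs_neg, abs_of_pos ha]
    ring
  · intro k hk
    rw [Finset.mem_insert, Finset.mem_singleton, not_or] at hk
    simp only [coord_sub, coord_smul, coord_unitVec]
    rw [Pi.single_eq_of_ne hk.1, Pi.single_eq_of_ne hk.2]
    simp

lemma mod_unitVec (i : ℕ) (K : ℝ) : mod K (unitVec M i) = M K := by
  unfold mod
  rw [tsum_eq_single i]
  · rw [coord_unitVec, Pi.single_eq_same, abs_one, mul_one]
  · intro k hk
    rw [coord_unitVec, Pi.single_eq_of_ne hk, abs_zero, mul_zero, M.map_zero]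

lemma exists_norm_unitVec_le : ∃ B : ℝ, ∀ i, ‖unitVec M i‖ ≤ B := by
  have h1 := M.pos one_pos
  set K : ℝ := min 1 (1 / M 1) with hK
  have hK0 : 0 < K := by positivity
  refine ⟨K⁻¹, fun i => norm_le_of_mod hK0 ?_⟩
  rw [mod_unitVec]
  have h2 := M.smul_le (l := K) (t := 1) hK0.le (min_le_left _ _) zero_le_one
  rw [mul_one] at h2
  refine h2.trans ?_
  calc K * M 1 ≤ 1 / M 1 * M 1 := mul_le_mul_of_nonneg_right (min_le_right _ _) h1.le
    _ = 1 := by field_simp

/-- two terms of a bounded sequence are close -/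
lemma exists_close {n : ℕ} (v : ℕ → Fin n → ℝ) {B : ℝ} (hB : ∀ m, ‖v m‖ ≤ B) {η : ℝ}
    (hη : 0 < η) : ∃ m m', m ≠ m' ∧ ‖v m - v m'‖ < η := by
  obtain ⟨a, _, φ, hφ, h⟩ := tendsto_subseq_of_bounded (x := v)
    (Metric.isBounded_closedBall (x := (0 : Fin n → ℝ)) (r := B))
    (fun m => by rw [mem_closedBall_zero_iff]; exact hB m)
  have hc := h.cauchySeq
  rw [Metric.cauchySeq_iff] at hc
  obtain ⟨N, hN⟩ := hc η hη
  refine ⟨φ N, φ (N + 1), fun h0 => ?_, ?_⟩
  · have := hφ.injective h0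
    omega
  · have := hN N le_rfl (N + 1) (by omega)
    rwa [dist_eq_norm] at this

lemma infinite_fiber (N : ℕ) : {i | nu i = N}.Infinite := by
  have h : Function.Injective (fun m => Nat.pair N m) := fun m m' h => by
    have := congrArg (fun x => (Nat.unpair x).2) h
    simpa using this
  refine (Set.infinite_range_of_injective h).mono ?_
  rintro _ ⟨m, rfl⟩
  show (Nat.unpair (Nat.pair N m)).1 = N
  rw [Nat.unpair_pair]

lemma exists_extension (ht : ∀ n, 0 < t n) (ht0 : Tendsto t atTop (𝓝 0)) (hR : 0 < R)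
    {b : OrliczSeq M → ℝ}
    (hb : ∀ x : OrliczSeq M, ∃ U ∈ nhds x, ∃ n : ℕ, ∃ φ : Fin n → (OrliczSeq M →L[ℝ] ℝ),
      ∃ g : (Fin n → ℝ) → ℝ, Continuous g ∧ ∀ z ∈ U, b z = g (fun i => φ i z))
    {ε : ℝ} (hε : 0 < ε) (z : OrliczSeq M) (hz : Pat t R z) (hm : mod R⁻¹ z < 1) :
    ∃ z' : OrliczSeq M, Pat t R z' ∧ Ext z z' ∧ mod R⁻¹ z < mod R⁻¹ z' ∧ mod R⁻¹ z' ≤ 1 ∧
      |b z' - b z| ≤ ε * (mod R⁻¹ z' - mod R⁻¹ z) := by
  classical
  have hRi : 0 < R⁻¹ := inv_pos.2 hR
  obtain ⟨U, hU, n, φ, g, hg, hgU⟩ := hb z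
  obtain ⟨δ, hδ, hδU⟩ := Metric.mem_nhds_iff.1 hU
  -- the level
  have hlim : ∀ c : ℝ, 0 ≤ c → Tendsto (fun k => M (c * t k)) atTop (𝓝 0) := by
    intro c hc
    apply M.tendsto_zero (fun k => mul_nonneg hc (ht k).le)
    have := ht0.const_mul c
    rwa [mul_zero] at this
  have h1 : ∀ᶠ k in atTop, M (1 * t k) < (1 - mod R⁻¹ z) / 2 :=
    (tendsto_order.1 (hlim 1 zero_le_one)).2 _ (by linarith)
  have h2 : ∀ᶠ k in atTop, M (2 / δ * R * t k) < 1 / 2 :=
    (tendsto_order.1 (hlim _ (by positivity))).2 _ (by norm_num)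
  obtain ⟨N, hN1, hN2⟩ := (h1.and h2).exists
  rw [one_mul] at hN1
  have htN := ht N
  set a := R * t N with ha
  have ha0 : 0 < a := by positivity
  have hMt : 0 < M (t N) := M.pos htN
  -- continuity of g
  have hgc : ContinuousAt g (fun i => φ i z) := hg.continuousAt
  rw [Metric.continuousAt_iff] at hgc
  obtain ⟨η, hη, hgη⟩ := hgc (ε * (2 * M (t N))) (by positivity)
  -- free coordinates
  have hinf : ({i | nu i = N} \ {i | a ≤ |z.coord i|}).Infinite :=
    (infinite_fiber N).diff (coord_tendsto z ha0)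
  set ι := hinf.natEmbedding with hι
  have hιN : ∀ m, nu (ι m) = N := fun m => (ι m).2.1
  have hιz : ∀ m, z.coord (ι m) = 0 := by
    intro m
    rcases hz.abs ht hR (ι m) with h3 | h3
    · exact h3
    · exfalso
      apply (ι m).2.2
      show a ≤ |z.coord (ι m)|
      rw [h3, hιN m]
  obtain ⟨B, hB⟩ := exists_norm_unitVec_le (M := M)
  have hB0 : 0 ≤ B := (norm_nonneg _).trans (hB 0)
  obtain ⟨m, m', hmm, hclose⟩ := exists_close
    (fun m => (fun l => φ l (a • unitVec M (ι m)) : Fin n → ℝ))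
    (B := ‖fun l => ‖φ l‖ * (a * B)‖) (fun m => by
      rw [pi_norm_le_iff_of_nonneg (norm_nonneg _)]
      intro l
      refine ((φ l).le_opNorm _).trans ?_
      refine le_trans ?_ (norm_le_pi_norm (fun l => ‖φ l‖ * (a * B)) l)
      rw [Real.norm_of_nonneg (by positivity)]
      apply mul_le_mul_of_nonneg_left _ (norm_nonneg _)
      rw [norm_smul, Real.norm_of_nonneg ha0.le]
      exact mul_le_mul_of_nonneg_left (hB _) ha0.le) hη
  set i := (ι m : ℕ) with hi
  set i' := (ι m' : ℕ) with hi'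
  have hii : i ≠ i' := fun h => hmm (ι.injective (Subtype.ext h))
  set y : OrliczSeq M := a • unitVec M i - a • unitVec M i' with hy
  have hyi : y.coord i = a := by
    rw [hy, coord_sub, coord_smul, coord_smul, coord_unitVec, coord_unitVec, Pi.single_eq_same,
      Pi.single_eq_of_ne hii, mul_one, mul_zero, sub_zero]
  have hyi' : y.coord i' = -a := by
    rw [hy, coord_sub, coord_smul, coord_smul, coord_unitVec, coord_unitVec, Pi.single_eq_same,
      Pi.single_eq_of_ne hii.symm, mul_one, mul_zero, zero_sub]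
  have hyk : ∀ k, k ≠ i → k ≠ i' → y.coord k = 0 := by
    intro k h3 h4
    rw [hy, coord_sub, coord_smul, coord_smul, coord_unitVec, coord_unitVec,
      Pi.single_eq_of_ne h3, Pi.single_eq_of_ne h4, mul_zero, sub_zero]
  have hext : Ext z (z + y) := by
    intro k
    rw [coord_add]
    by_cases h3 : k = i
    · left; rw [h3]; exact hιz m
    · by_cases h4 : k = i'
      · left; rw [h4]; exact hιz m'
      · right; rw [hyk k h3 h4, add_zero]
  have hmass : mod R⁻¹ (z + y) = mod R⁻¹ z + 2 * M (t N) := by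
    rw [mass_add hRi hext, add_sub_cancel_left, hy, mod_pair hii ha0, ha,
      inv_mul_cancel_left₀ hR.ne']
  have hnorm : ‖y‖ < δ := by
    have h3 : mod (2 / δ) y ≤ 1 := by
      rw [hy, mod_pair hii ha0, ha, ← mul_assoc]
      linarith
    have h4 := norm_le_of_mod (by positivity) h3
    rw [inv_div] at h4
    linarith
  refine ⟨z + y, ?_, hext, by linarith, by linarith, ?_⟩
  · intro k
    rw [coord_add]
    by_cases h3 : k = i
    · right; left
      rw [h3, hyi, hi, hιz m, zero_add, hιN m]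
    · by_cases h4 : k = i'
      · right; right
        rw [h4, hyi', hi', hιz m', zero_add, hιN m']
      · rw [hyk k h3 h4, add_zero]
        exact hz k
  · have hzU : z ∈ U := mem_of_mem_nhds hU
    have hyU : z + y ∈ U := hδU (by rw [Metric.mem_ball, dist_eq_norm, add_sub_cancel_left]; exact hnorm)
    rw [hgU z hzU, hgU _ hyU, hmass, add_sub_cancel_left]
    have e : (fun l => φ l (z + y)) - (fun l => φ l z)
        = (fun l => φ l (a • unitVec M i)) - (fun l => φ l (a • unitVec M i')) := by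
      funext l
      show φ l (z + y) - φ l z = φ l (a • unitVec M i) - φ l (a • unitVec M i')
      rw [map_add, add_sub_cancel_left, hy, map_sub]
    have h3 : dist (fun l => φ l (z + y)) (fun l => φ l z) < η := by
      rw [dist_eq_norm, e]
      simpa [dist_eq_norm] using hclose
    have h4 := hgη h3
    rw [Real.dist_eq] at h4
    exact h4.le

end

/-! ### the main argument -/

/-- the relation `L` is stated for triples (pattern, extension, small change of `b`) -/
def Leg (t : ℕ → ℝ) (R : ℝ) (b : OrliczSeq M → ℝ) (ε : ℝ) (z z' : OrliczSeq M) : Prop :=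
  Pat t R z' ∧ Ext z z' ∧ mod R⁻¹ z' ≤ 1 ∧ |b z' - b z| ≤ ε * (mod R⁻¹ z' - mod R⁻¹ z)

theorem no_bump_aux {t : ℕ → ℝ} {R : ℝ} (ht : ∀ n, 0 < t n) (ht0 : Tendsto t atTop (𝓝 0))
    (hC : ∀ K : ℝ, 0 < K → ∃ C : ℝ, ∀ n, M (K * t n) ≤ C * M (t n)) (hR : 0 < R)
    {b : OrliczSeq M → ℝ} (hbc : Continuous b) (hb0 : b 0 ≠ 0) (hbR : ∀ x, b x ≠ 0 → ‖x‖ < R)
    (hb : ∀ x : OrliczSeq M, ∃ U ∈ nhds x, ∃ n : ℕ, ∃ φ : Fin n → (OrliczSeq M →L[ℝ] ℝ),
      ∃ g : (Fin n → ℝ) → ℝ, Continuous g ∧ ∀ z ∈ U, b z = g (fun i => φ i z)) : False := by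
  classical
  have hRi : 0 < R⁻¹ := inv_pos.2 hR
  set ε : ℝ := |b 0| / 2 with hε
  have hb0' : 0 < |b 0| := abs_pos.2 hb0
  have hε0 : 0 < ε := by positivity
  have hmono : ∀ z z', Ext z z' → mod R⁻¹ z ≤ mod (M := M) R⁻¹ z' := by
    intro z z' h
    rw [mass_add hRi h]
    linarith [mod_nonneg hRi.le (z' - z)]
  have htrans : ∀ z z' z'', Leg t R b ε z z' → Leg t R b ε z' z'' → Leg t R b ε z z'' := by
    rintro z z' z'' ⟨h1, h2, h3, h4⟩ ⟨h5, h6, h7, h8⟩
    refine ⟨h5, h2.trans h6, h7, ?_⟩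
    have := abs_add_le (b z'' - b z') (b z' - b z)
    rw [sub_add_sub_cancel] at this
    linarith
  have hm0 : mod R⁻¹ (0 : OrliczSeq M) = 0 := by
    unfold mod
    simp
  -- masses are smaller than one
  have hlt : ∀ z, Leg t R b ε 0 z → mod R⁻¹ z < 1 := by
    rintro z ⟨h1, h2, h3, h4⟩
    have h5 : b z ≠ 0 := by
      intro h0
      rw [h0, hm0, sub_zero, zero_sub, abs_neg] at h4
      have : ε * mod R⁻¹ z ≤ ε * 1 := mul_le_mul_of_nonneg_left h3 hε0.le
      rw [hε] at this h4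
      linarith
    have h6 := hbR z h5
    obtain ⟨r, hr1, hr2⟩ := exists_between h6
    have hr0 : 0 < r := (norm_nonneg _).trans_lt hr1
    have h7 : mod r⁻¹ z ≤ 1 := mod_le_one_of_norm (by rwa [inv_inv])
    have h8 := mod_mul_le (K := r⁻¹) (l := r / R) (by positivity) (by positivity)
      (by rw [div_le_one hR]; exact hr2.le) z
    have e : r / R * r⁻¹ = R⁻¹ := by field_simp
    rw [e] at h8
    have h9 : r / R * mod r⁻¹ z ≤ r / R * 1 := mul_le_mul_of_nonneg_left h7 (by positivity)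
    have h10 : r / R < 1 := by rw [div_lt_one hR]; exact hr2
    linarith
  -- greedy step
  have hstep : ∀ z : OrliczSeq M, Pat t R z → mod R⁻¹ z ≤ 1 → ∃ z', Leg t R b ε z z' ∧
      ∀ z'', Leg t R b ε z z'' → mod R⁻¹ z'' - mod R⁻¹ z ≤ 2 * (mod R⁻¹ z' - mod R⁻¹ z) := by
    intro z hz hz1
    set S : Set ℝ := {s | ∃ z'', Leg t R b ε z z'' ∧ s = mod R⁻¹ z'' - mod R⁻¹ z} with hS
    have hzz : Leg t R b ε z z := ⟨hz, fun i => Or.inr rfl, hz1, by simp⟩
    have hSne : S.Nonempty := ⟨0, z, hzz, by simp⟩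
    have hSb : BddAbove S := by
      refine ⟨1, ?_⟩
      rintro _ ⟨z'', h, rfl⟩
      linarith [h.2.2.1, mod_nonneg hRi.le z]
    by_cases h0 : sSup S ≤ 0
    · refine ⟨z, hzz, fun z'' h => ?_⟩
      have := le_csSup hSb ⟨z'', h, rfl⟩
      rw [sub_self, mul_zero]
      exact this.trans h0
    · rw [not_le] at h0
      obtain ⟨s, ⟨z', h1, rfl⟩, h2⟩ := exists_lt_of_lt_csSup hSne (show sSup S / 2 < sSup S by linarith)
      refine ⟨z', h1, fun z'' h => ?_⟩
      have := le_csSup hSb ⟨z'', h, rfl⟩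
      linarith
  choose! F hF1 hF2 using hstep
  set z : ℕ → OrliczSeq M := fun k => F^[k] 0 with hz
  have hzs : ∀ k, z (k + 1) = F (z k) := fun k => Function.iterate_succ_apply' F k 0
  have hP0 : Pat t R (0 : OrliczSeq M) := fun i => Or.inl rfl
  have hzP : ∀ k, Pat t R (z k) ∧ mod R⁻¹ (z k) ≤ 1 := by
    intro k
    induction k with
    | zero =>
      refine ⟨hP0, ?_⟩
      show mod R⁻¹ (0 : OrliczSeq M) ≤ 1
      rw [hm0]; exact zero_le_one
    | succ k ih =>
      rw [hzs]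
      have := hF1 (z k) ih.1 ih.2
      exact ⟨this.1, this.2.2.1⟩
  have hleg : ∀ k, Leg t R b ε (z k) (z (k + 1)) := fun k => by
    rw [hzs]; exact hF1 (z k) (hzP k).1 (hzP k).2
  have hlegle : ∀ k l, k ≤ l → Leg t R b ε (z k) (z l) := by
    intro k l hkl
    induction l, hkl using Nat.le_induction with
    | base => exact ⟨(hzP k).1, fun i => Or.inr rfl, (hzP k).2, by simp⟩
    | succ l _ ih => exact htrans _ _ _ ih (hleg l)
  obtain ⟨w, hw1, hw2, hw3, hw4, hw5⟩ := exists_limit ht hR hC z (fun k => (hzP k).1)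
    (fun k l hkl => (hlegle k l hkl).2.1) (fun k => (hzP k).2)
  have hlegw : ∀ k, Leg t R b ε (z k) w := by
    intro k
    refine ⟨hw1, hw2 k, hw3, ?_⟩
    have h1 : Tendsto (fun l => |b (z l) - b (z k)|) atTop (𝓝 |b w - b (z k)|) :=
      (((hbc.tendsto w).comp hw4).sub_const _).abs
    have h2 : Tendsto (fun l => ε * (mod R⁻¹ (z l) - mod R⁻¹ (z k))) atTop
        (𝓝 (ε * (mod R⁻¹ w - mod R⁻¹ (z k)))) := (hw5.sub_const _).const_mul _
    exact le_of_tendsto_of_tendsto h1 h2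
      (eventually_atTop.2 ⟨k, fun l hl => (hlegle k l hl).2.2.2⟩)
  have hw0 : Leg t R b ε 0 w := hlegw 0
  obtain ⟨w', hw'1, hw'2, hw'3, hw'4, hw'5⟩ := exists_extension ht ht0 hR hb hε0 w hw1 (hlt w hw0)
  have hlegw' : ∀ k, Leg t R b ε (z k) w' := fun k =>
    htrans _ _ _ (hlegw k) ⟨hw'1, hw'2, hw'4, hw'5⟩
  set β := mod R⁻¹ w' - mod R⁻¹ w with hβ
  have hβ0 : 0 < β := by linarith
  have hgain : ∀ k, β / 2 ≤ mod R⁻¹ (z (k + 1)) - mod R⁻¹ (z k) := by
    intro k
    have h1 := hF2 (z k) (hzP k).1 (hzP k).2 w' (hlegw' k)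
    rw [← hzs] at h1
    have h2 := hmono _ _ (hw2 k)
    linarith
  have hgrow : ∀ k : ℕ, k * (β / 2) ≤ mod R⁻¹ (z k) := by
    intro k
    induction k with
    | zero => simpa using mod_nonneg hRi.le (z 0)
    | succ k ih =>
      have := hgain k
      push_cast
      linarith
  obtain ⟨k, hk⟩ := exists_nat_gt (1 / (β / 2))
  have h1 := hgrow k
  have h2 := (hzP k).2
  rw [div_lt_iff₀ (by positivity)] at hk
  linarith

/-- If there is a slow sequence then `h_M` has no continuous bump function which locally depends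
on finitely many coordinates. -/
theorem not_hasLFCBump (hM : HasSlowSeq M) : ¬ HasLFCBump (OrliczSeq M) := by
  rintro ⟨f, hf, hf0, hfb, hfl⟩
  obtain ⟨t, ht, ht0, hC⟩ := hM
  obtain ⟨x0, hx0⟩ : ∃ x0, f x0 ≠ 0 := by
    by_contra hcon
    push Not at hcon
    exact hf0 (funext hcon)
  obtain ⟨R, hR⟩ := hfb.exists_norm_le
  have hR' : ∀ x, f x ≠ 0 → ‖x‖ ≤ R := fun x hx => hR x hx
  have hR0 : 0 ≤ R := (norm_nonneg _).trans (hR' x0 hx0)
  refine no_bump_aux (R := R + ‖x0‖ + 1) ht ht0 hC (by positivity)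
    (b := fun x => f (x + x0)) (by fun_prop) (by simpa using hx0) ?_ ?_
  · intro x hx
    have h1 := hR' _ hx
    have h2 : ‖x‖ ≤ ‖x + x0‖ + ‖x0‖ := by
      have := norm_sub_le (x + x0) x0
      rwa [add_sub_cancel_right] at this
    linarith
  · intro x
    obtain ⟨U, hU, n, φ, g, hg, h⟩ := hfl (x + x0)
    refine ⟨(fun z => z + x0) ⁻¹' U, (continuous_add_right x0).continuousAt hU, n, φ,
      fun v => g (fun i => v i + φ i x0), by fun_prop, fun z hz => ?_⟩
    show f (z + x0) = _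
    rw [h _ hz]
    simp only [map_add]

end Pool.Agent.LibOrlicz
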